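import Mathlib

/-!
# Random subsets with independent memberships
-/

set_option autoImplicit false

namespace Pool.Agent.X77.RK

open Finset

variable {V : Type} [DecidableEq V]

/-- The expectation of `G C` for the random subset `C` of `S` which contains each `c ∈ S` with
probability `t c`, independently. -/
noncomputable def EX (t : V → ℝ) (S : Finset V) (G : Finset V → ℝ) : ℝ :=
  ∑ C ∈ S.powerset, (∏ c ∈ C, t c) * (∏ c ∈ S \ C, (1 - t c)) * G C

theorem EX_empty (t : V → ℝ) (G : Finset V → ℝ) : EX t ∅ G = G ∅ := by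
  simp [EX]

theorem EX_insert (t : V → ℝ) {S : Finset V} {i : V} (hi : i ∉ S) (G : Finset V → ℝ) :
    EX t (insert i S) G = t i * EX t S (fun C => G (insert i C)) + (1 - t i) * EX t S G := by
  unfold EX
  rw [Finset.sum_powerset_insert hi, add_comm, Finset.mul_sum, Finset.mul_sum]
  congr 1
  · refine Finset.sum_congr rfl fun C hC => ?_
    have hC' : C ⊆ S := Finset.mem_powerset.1 hC
    have hiC : i ∉ C := fun h => hi (hC' h)
    rw [Finset.prod_insert hiC]
    have h1 : insert i S \ insert i C = S \ C := by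
      ext x
      simp only [mem_sdiff, mem_insert, not_or]
      constructor
      · rintro ⟨h1 | h1, h2, h3⟩
        · exact absurd h1 h2
        · exact ⟨h1, h3⟩
      · rintro ⟨h1, h2⟩
        exact ⟨Or.inr h1, fun h => hi (h ▸ h1), h2⟩
    rw [h1]
    ring
  · refine Finset.sum_congr rfl fun C hC => ?_
    have hC' : C ⊆ S := Finset.mem_powerset.1 hC
    have hiC : i ∉ C := fun h => hi (hC' h)
    rw [Finset.insert_sdiff_of_notMem _ hiC,
      Finset.prod_insert (fun h => hi (Finset.mem_sdiff.1 h).1)]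
    ring

theorem EX_singleton (t : V → ℝ) (i : V) (G : Finset V → ℝ) :
    EX t {i} G = t i * G {i} + (1 - t i) * G ∅ := by
  have h := EX_insert t (Finset.notMem_empty i) G
  rw [insert_empty_eq, EX_empty, EX_empty, insert_empty_eq] at h
  exact h

theorem EX_congr {t t' : V → ℝ} {S : Finset V} {G G' : Finset V → ℝ}
    (ht : ∀ c ∈ S, t c = t' c) (hG : ∀ C, C ⊆ S → G C = G' C) : EX t S G = EX t' S G' := by
  unfold EX
  refine Finset.sum_congr rfl fun C hC => ?_
  have hC' : C ⊆ S := Finset.mem_powerset.1 hC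
  rw [hG C hC', Finset.prod_congr rfl (fun c hc => ht c (hC' hc)),
    Finset.prod_congr rfl (fun c hc => by rw [ht c (Finset.mem_sdiff.1 hc).1] :
      ∀ c ∈ S \ C, 1 - t c = 1 - t' c)]

theorem EX_add (t : V → ℝ) (S : Finset V) (G G' : Finset V → ℝ) :
    EX t S (fun C => G C + G' C) = EX t S G + EX t S G' := by
  unfold EX
  rw [← Finset.sum_add_distrib]
  exact Finset.sum_congr rfl fun C _ => by ring

theorem EX_sub (t : V → ℝ) (S : Finset V) (G G' : Finset V → ℝ) :
    EX t S (fun C => G C - G' C) = EX t S G - EX t S G' := by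
  unfold EX
  rw [← Finset.sum_sub_distrib]
  exact Finset.sum_congr rfl fun C _ => by ring

theorem EX_mul (t : V → ℝ) (S : Finset V) (k : ℝ) (G : Finset V → ℝ) :
    EX t S (fun C => k * G C) = k * EX t S G := by
  unfold EX
  rw [Finset.mul_sum]
  exact Finset.sum_congr rfl fun C _ => by ring

theorem EX_sum {ι : Type} (t : V → ℝ) (S : Finset V) (J : Finset ι) (G : ι → Finset V → ℝ) :
    EX t S (fun C => ∑ j ∈ J, G j C) = ∑ j ∈ J, EX t S (G j) := by
  unfold EX
  rw [Finset.sum_comm]
  exact Finset.sum_congr rfl fun C _ => by rw [Finset.mul_sum]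

theorem EX_const (t : V → ℝ) (S : Finset V) (k : ℝ) : EX t S (fun _ => k) = k := by
  induction S using Finset.induction_on with
  | empty => rw [EX_empty]
  | insert i S hi ih =>
    rw [EX_insert t hi, ih]
    ring

theorem EX_zero (t : V → ℝ) (S : Finset V) : EX t S (fun _ => 0) = 0 := EX_const t S 0

theorem EX_mono {t : V → ℝ} {S : Finset V} {G G' : Finset V → ℝ}
    (ht0 : ∀ c ∈ S, 0 ≤ t c) (ht1 : ∀ c ∈ S, t c ≤ 1) (hG : ∀ C, C ⊆ S → G C ≤ G' C) :
    EX t S G ≤ EX t S G' := by
  unfold EX
  refine Finset.sum_le_sum fun C hC => ?_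
  have hC' : C ⊆ S := Finset.mem_powerset.1 hC
  refine mul_le_mul_of_nonneg_left (hG C hC') (mul_nonneg ?_ ?_)
  · exact Finset.prod_nonneg fun c hc => ht0 c (hC' hc)
  · exact Finset.prod_nonneg fun c hc => by
      have := ht1 c (Finset.mem_sdiff.1 hc).1
      linarith

theorem EX_abs_le {t : V → ℝ} {S : Finset V} {G G' : Finset V → ℝ}
    (ht0 : ∀ c ∈ S, 0 ≤ t c) (ht1 : ∀ c ∈ S, t c ≤ 1) (hG : ∀ C, C ⊆ S → |G C| ≤ G' C) :
    |EX t S G| ≤ EX t S G' := by
  rw [abs_le]
  constructor
  · have h1 := EX_mono ht0 ht1 (G := fun C => (-1) * G' C) (G' := G) (fun C hC => by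
      have := (abs_le.1 (hG C hC)).1
      linarith)
    rw [EX_mul] at h1
    linarith
  · exact EX_mono ht0 ht1 (fun C hC => (abs_le.1 (hG C hC)).2)

theorem EX_inter (t : V → ℝ) (S S' : Finset V) (G : Finset V → ℝ) :
    EX t S (fun C => G (C ∩ S')) = EX t (S ∩ S') G := by
  induction S using Finset.induction_on generalizing G with
  | empty => rw [EX_empty, Finset.empty_inter, EX_empty]
  | insert i S hi ih =>
    rw [EX_insert t hi]
    by_cases h : i ∈ S'
    · rw [Finset.insert_inter_of_mem h, EX_insert t (fun h' => hi (Finset.mem_inter.1 h').1)]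
      have e1 := ih (fun C => G (insert i C))
      have e2 := ih G
      simp only [Finset.insert_inter_of_mem h]
      rw [e1, e2]
    · rw [Finset.insert_inter_of_notMem h]
      simp only [Finset.insert_inter_of_notMem h]
      rw [ih]
      ring

/-- marginals -/
theorem EX_inter_subset (t : V → ℝ) {S S' : Finset V} (h : S' ⊆ S) (G : Finset V → ℝ) :
    EX t S (fun C => G (C ∩ S')) = EX t S' G := by
  rw [EX_inter, Finset.inter_eq_right.2 h]

theorem EX_prod (t a : V → ℝ) (S : Finset V) :
    EX t S (fun C => ∏ c ∈ C, a c) = ∏ c ∈ S, (t c * a c + (1 - t c)) := by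
  induction S using Finset.induction_on with
  | empty => rw [EX_empty]; simp
  | insert i S hi ih =>
    rw [EX_insert t hi, Finset.prod_insert hi, ← ih]
    have h1 : EX t S (fun C => ∏ c ∈ insert i C, a c) = a i * EX t S (fun C => ∏ c ∈ C, a c) := by
      rw [← EX_mul]
      refine EX_congr (fun _ _ => rfl) fun C hC => ?_
      rw [Finset.prod_insert (fun h => hi (hC h))]
    rw [h1]
    ring

/-- the probability of the empty set -/
theorem EX_isEmpty (t : V → ℝ) (S : Finset V) :
    EX t S (fun C => if C = ∅ then 1 else 0) = ∏ c ∈ S, (1 - t c) := by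
  induction S using Finset.induction_on with
  | empty => rw [EX_empty]; simp
  | insert i S hi ih =>
    rw [EX_insert t hi, Finset.prod_insert hi, ← ih]
    simp only [Finset.insert_ne_empty, if_false]
    rw [EX_zero]
    ring

theorem EX_swap (t s : V → ℝ) (S R : Finset V) (G : Finset V → Finset V → ℝ) :
    EX t S (fun C => EX s R (fun L => G C L)) = EX s R (fun L => EX t S (fun C => G C L)) := by
  have h1 : ∀ C, EX s R (fun L => G C L)
      = ∑ L ∈ R.powerset, ((∏ c ∈ L, s c) * (∏ c ∈ R \ L, (1 - s c))) * G C L := fun C => rfl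
  simp_rw [h1]
  rw [EX_sum]
  simp_rw [EX_mul]
  rfl

/-- the event that a given element is missed -/
theorem EX_mem_factor (t : V → ℝ) {S : Finset V} {w : V} (hw : w ∈ S) (G : Finset V → ℝ) :
    EX t S (fun C => if w ∈ C then 0 else G C) = (1 - t w) * EX t (S.erase w) G := by
  conv_lhs => rw [← Finset.insert_erase hw]
  rw [EX_insert t (Finset.notMem_erase w S)]
  simp only [Finset.mem_insert_self, if_true]
  rw [EX_zero, mul_zero, zero_add]
  congr 1
  refine EX_congr (fun _ _ => rfl) fun C hC => ?_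
  rw [if_neg (fun h => Finset.notMem_erase w S (hC h))]

end Pool.Agent.X77.RK
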