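import Pool.Agent.X77.RK.Swap

/-!
# The gain of two teams
-/

set_option autoImplicit false

namespace Pool.Agent.X77.RK

open Finset

variable {V : Type} [DecidableEq V]

theorem ins_comm (u v : V) (M : Finset V) : insert u (insert v M) = insert v (insert u M) := by
  ext c
  simp only [mem_insert]
  tauto

omit [DecidableEq V] in
theorem prod_le_sq {x : ℝ} (hx : 1 / 2 ≤ x) (hx1 : x ≤ 1) {a : V → ℝ} {M : Finset V}
    (hM : 2 ≤ M.card) (ha : ∀ j ∈ M, 1 - x ≤ a j ∧ a j ≤ x) :
    0 ≤ ∏ j ∈ M, a j ∧ ∏ j ∈ M, a j ≤ x ^ 2 := by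
  refine ⟨Finset.prod_nonneg fun j hj => by linarith [(ha j hj).1], ?_⟩
  calc ∏ j ∈ M, a j ≤ ∏ _j ∈ M, x :=
        Finset.prod_le_prod (fun j hj => by linarith [(ha j hj).1]) fun j hj => (ha j hj).2
    _ = x ^ M.card := by rw [Finset.prod_const]
    _ ≤ x ^ 2 := pow_le_pow_of_le_one (by linarith) hx1 hM

theorem prod_bounds {x : ℝ} (hx : 1 / 2 ≤ x) (hx1 : x ≤ 1) (M : Finset V) :
    ∀ a b : V → ℝ, (∀ j ∈ M, 1 - x ≤ a j ∧ a j ≤ x) → (∀ j ∈ M, 1 - x ≤ b j ∧ b j ≤ x) →
      2 ≤ M.card → (∏ j ∈ M, a j - ∏ j ∈ M, b j ≤ 2 * x - 1) ∧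
        (3 ≤ M.card → ∏ j ∈ M, a j - ∏ j ∈ M, b j ≤ (2 * x - 1) * rr x) := by
  induction M using Finset.induction_on with
  | empty => intro a b _ _ h; simp at h
  | insert i M hi ih =>
    intro a b ha hb hc
    rw [Finset.card_insert_of_notMem hi] at hc
    have hai := ha i (Finset.mem_insert_self _ _)
    have hbi := hb i (Finset.mem_insert_self _ _)
    have ha' := fun j hj => ha j (Finset.mem_insert_of_mem hj)
    have hb' := fun j hj => hb j (Finset.mem_insert_of_mem hj)
    have hr0 : 3 / 4 ≤ rr x := by unfold rr; nlinarith [sq_nonneg (x - 1 / 2)]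
    have hr2 : rr x ≤ 1 := by unfold rr; nlinarith
    have hρ : 0 ≤ 2 * x - 1 := by linarith
    rw [Finset.prod_insert hi, Finset.prod_insert hi, Finset.card_insert_of_notMem hi]
    rcases Nat.lt_or_ge M.card 2 with h2 | h2
    · have h1 : M.card = 1 := by omega
      obtain ⟨j, rfl⟩ := Finset.card_eq_one.1 h1
      rw [Finset.prod_singleton, Finset.prod_singleton]
      have haj := ha' j (Finset.mem_singleton_self j)
      have hbj := hb' j (Finset.mem_singleton_self j)
      constructor
      · have e1 : a i * a j ≤ x * x := mul_le_mul hai.2 haj.2 (by linarith) (by linarith)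
        have e2 : (1 - x) * (1 - x) ≤ b i * b j :=
          mul_le_mul hbi.1 hbj.1 (by linarith) (by linarith)
        nlinarith
      · intro h3
        rw [Finset.card_singleton] at h3
        omega
    · have h3 := (ih a b ha' hb' h2).1
      have hP := prod_le_sq hx hx1 h2 ha'
      have hR := prod_le_sq hx hx1 h2 hb'
      set P := ∏ j ∈ M, a j
      set R := ∏ j ∈ M, b j
      have e1 : a i * P ≤ x * P := mul_le_mul_of_nonneg_right hai.2 hP.1
      have e2 : (1 - x) * R ≤ b i * R := mul_le_mul_of_nonneg_right hbi.1 hR.1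
      have e3 : (1 - x) * (P - R) ≤ (1 - x) * (2 * x - 1) :=
        mul_le_mul_of_nonneg_left h3 (by linarith)
      have e4 : (2 * x - 1) * P ≤ (2 * x - 1) * x ^ 2 := mul_le_mul_of_nonneg_left hP.2 hρ
      have e5 : a i * P - b i * R ≤ (2 * x - 1) * rr x := by
        have e6 : (2 * x - 1) * rr x = (1 - x) * (2 * x - 1) + (2 * x - 1) * x ^ 2 := by
          unfold rr; ring
        nlinarith
      refine ⟨e5.trans ?_, fun _ => e5⟩
      nlinarith

theorem star {x : ℝ} (hx : 1 / 2 ≤ x) (hx1 : x ≤ 1) (M : Finset V) (a b : V → ℝ)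
    (ha : ∀ j ∈ M, 1 - x ≤ a j ∧ a j ≤ x) (hb : ∀ j ∈ M, 1 - x ≤ b j ∧ b j ≤ x)
    (hM : 2 ≤ M.card) :
    3 * |∏ j ∈ M, a j - ∏ j ∈ M, b j| ≤ (2 * x - 1) * (2 + ∑ i ∈ M, (1 - a i * b i)
      * ∏ j ∈ M.erase i, (1 - (1 - a j) * (1 - b j))) := by
  have hr0 : 3 / 4 ≤ rr x := by unfold rr; nlinarith [sq_nonneg (x - 1 / 2)]
  have hr2 : rr x ≤ 1 := by unfold rr; nlinarith
  have hρ : 0 ≤ 2 * x - 1 := by linarith
  rcases Nat.lt_or_ge M.card 3 with h3 | h3
  · have h2 : M.card = 2 := by omega
    obtain ⟨i, j, hij, rfl⟩ := Finset.card_eq_two.1 h2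
    have hi : i ∉ ({j} : Finset V) := by simpa using hij
    have e1 : ({i, j} : Finset V).erase i = {j} := Finset.erase_insert hi
    have e2 : ({i, j} : Finset V).erase j = {i} := by
      rw [Finset.pair_comm]
      exact Finset.erase_insert (by simpa using hij.symm)
    rw [Finset.prod_insert hi, Finset.prod_insert hi, Finset.prod_singleton,
      Finset.prod_singleton, Finset.sum_insert hi, Finset.sum_singleton, e1, e2,
      Finset.prod_singleton, Finset.prod_singleton]
    have hai := ha i (by simp)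
    have haj := ha j (by simp)
    have hbi := hb i (by simp)
    have hbj := hb j (by simp)
    have f1 := two_teams hx hx1 hai.1 hai.2 hbi.1 hbi.2 haj.1 haj.2 hbj.1 hbj.2
    have f2 := two_teams hx hx1 hbi.1 hbi.2 hai.1 hai.2 hbj.1 hbj.2 haj.1 haj.2
    rcases abs_cases (a i * a j - b i * b j) with ⟨h, _⟩ | ⟨h, _⟩
    · rw [h]; linarith
    · rw [h]; linarith
  · have h1 := (prod_bounds hx hx1 M a b ha hb hM).2 h3
    have h2 := (prod_bounds hx hx1 M b a hb ha hM).2 h3
    have h4 : |∏ j ∈ M, a j - ∏ j ∈ M, b j| ≤ (2 * x - 1) * rr x := by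
      rw [abs_le]; constructor <;> linarith
    have h5 := prod_diff_le a b M (fun j hj => by linarith [(ha j hj).1])
      (fun j hj => by linarith [(ha j hj).2]) (fun j hj => by linarith [(hb j hj).1])
      (fun j hj => by linarith [(hb j hj).2])
    set Q := |∏ j ∈ M, a j - ∏ j ∈ M, b j|
    have hQ : 0 ≤ Q := abs_nonneg _
    have h6 : rr x * Q ≤ (2 * x - 1) * ∑ i ∈ M, (1 - a i * b i)
        * ∏ j ∈ M.erase i, (1 - (1 - a j) * (1 - b j)) := by
      refine (mul_le_mul_of_nonneg_left h5 (by linarith)).trans ?_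
      rw [Finset.mul_sum, Finset.mul_sum]
      refine Finset.sum_le_sum fun i hi => ?_
      have h7 := rr_mul_le hx hx1 (ha i hi).1 (ha i hi).2 (hb i hi).1 (hb i hi).2
      have h8 : 0 ≤ ∏ j ∈ M.erase i, (1 - (1 - a j) * (1 - b j)) := by
        refine Finset.prod_nonneg fun j hj => ?_
        have hj' := Finset.mem_of_mem_erase hj
        nlinarith [(ha j hj').1, (ha j hj').2, (hb j hj').1, (hb j hj').2]
      have := mul_le_mul_of_nonneg_right h7 h8
      linarith
    have h9 : (3 - rr x) * Q ≤ 2 * (2 * x - 1) := by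
      have h10 : (3 - rr x) * Q ≤ (3 - rr x) * ((2 * x - 1) * rr x) :=
        mul_le_mul_of_nonneg_left h4 (by linarith)
      have h11 : 0 ≤ (2 * x - 1) * ((1 - rr x) * (2 - rr x)) :=
        mul_nonneg hρ (mul_nonneg (by linarith) (by linarith))
      nlinarith
    nlinarith

/-- The set `M` of the other teams, at least two. -/
theorem total_bound {p : V → V → ℝ} {x : ℝ} (hx : 1 / 2 ≤ x) (hx1 : x ≤ 1)
    (hp : ∀ i j, i ≠ j → p i j ≤ x) (hs : ∀ i j, i ≠ j → p i j + p j i = 1) (M : Finset V)
    (a b : V → ℝ) (ha : ∀ j ∈ M, 1 - x ≤ a j ∧ a j ≤ x) (hb : ∀ j ∈ M, 1 - x ≤ b j ∧ b j ≤ x)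
    (hM : 2 ≤ M.card) :
    |NN p a b M - NN p b a M + (∏ j ∈ M, a j - ∏ j ∈ M, b j)|
      ≤ (2 * x - 1) / 3 * (2 + ∑ i ∈ M, (1 - a i * b i)) := by
  have h1 := NN_swap hx hx1 hp hs (a := a) (b := b) (M := M)
    (fun j hj => by linarith [(ha j hj).1])
    (fun j hj => by linarith [(ha j hj).2]) (fun j hj => by linarith [(hb j hj).1])
    (fun j hj => by linarith [(hb j hj).2])
  have h2 := star hx hx1 M a b ha hb hM
  have h3 : ∑ i ∈ M, |a i - b i| * (rr x / 3 * (1 - ∏ j ∈ M.erase i, (1 - (1 - a j) * (1 - b j))))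
      ≤ ∑ i ∈ M, (2 * x - 1) / 3 * ((1 - a i * b i)
        * (1 - ∏ j ∈ M.erase i, (1 - (1 - a j) * (1 - b j)))) := by
    refine Finset.sum_le_sum fun i hi => ?_
    have h7 := rr_mul_le hx hx1 (ha i hi).1 (ha i hi).2 (hb i hi).1 (hb i hi).2
    have h8 : ∏ j ∈ M.erase i, (1 - (1 - a j) * (1 - b j)) ≤ 1 := by
      refine Finset.prod_le_one (fun j hj => ?_) (fun j hj => ?_)
      · have hj' := Finset.mem_of_mem_erase hj
        nlinarith [(ha j hj').1, (ha j hj').2, (hb j hj').1, (hb j hj').2]
      · have hj' := Finset.mem_of_mem_erase hj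
        nlinarith [(ha j hj').1, (ha j hj').2, (hb j hj').1, (hb j hj').2]
    have := mul_le_mul_of_nonneg_right h7 (by linarith :
      0 ≤ 1 - ∏ j ∈ M.erase i, (1 - (1 - a j) * (1 - b j)))
    linarith
  have h4 : ∑ i ∈ M, (2 * x - 1) / 3 * ((1 - a i * b i)
        * (1 - ∏ j ∈ M.erase i, (1 - (1 - a j) * (1 - b j))))
      = (2 * x - 1) / 3 * (∑ i ∈ M, (1 - a i * b i))
        - (2 * x - 1) / 3 * ∑ i ∈ M, (1 - a i * b i)
          * ∏ j ∈ M.erase i, (1 - (1 - a j) * (1 - b j)) := by
    rw [← Finset.mul_sum, ← mul_sub, ← Finset.sum_sub_distrib]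
    congr 1
    exact Finset.sum_congr rfl fun i _ => by ring
  refine (abs_add_le _ _).trans ?_
  linarith

/-! ### The two teams -/

/-- the tournament `p` in which `u` beats `v` with probability `t` -/
def setm (p : V → V → ℝ) (u v : V) (t : ℝ) : V → V → ℝ := fun i j =>
  if i = u ∧ j = v then t else if i = v ∧ j = u then 1 - t else p i j

theorem setm_comm {p : V → V → ℝ} {u v : V} (huv : u ≠ v) (t : ℝ) :
    setm p u v t = setm p v u (1 - t) := by
  funext i j
  unfold setm
  by_cases h1 : i = u ∧ j = v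
  · rw [if_pos h1, if_neg, if_pos h1]
    · ring
    · rintro ⟨h2, _⟩
      exact huv (h1.1.symm.trans h2)
  · rw [if_neg h1, if_neg h1]

theorem setm_add {p : V → V → ℝ} (hs : ∀ i j, i ≠ j → p i j + p j i = 1) {u v : V}
    (huv : u ≠ v) (t : ℝ) : ∀ i j, i ≠ j → setm p u v t i j + setm p u v t j i = 1 := by
  intro i j hij
  unfold setm
  by_cases h1 : i = u ∧ j = v
  · obtain ⟨rfl, rfl⟩ := h1
    simp [huv]
  · by_cases h2 : i = v ∧ j = u
    · obtain ⟨rfl, rfl⟩ := h2
      simp [huv]
    · have h3 : ¬ (j = u ∧ i = v) := fun h => h2 ⟨h.2, h.1⟩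
      have h4 : ¬ (j = v ∧ i = u) := fun h => h1 ⟨h.2, h.1⟩
      rw [if_neg h1, if_neg h2, if_neg h3, if_neg h4]
      exact hs i j hij

theorem setm_of_ne {p : V → V → ℝ} {u v : V} {t : ℝ} {i j : V} (h : ¬ (i = u ∧ j = v))
    (h' : ¬ (i = v ∧ j = u)) : setm p u v t i j = p i j := by
  unfold setm
  rw [if_neg h, if_neg h']

theorem Phi_setm {p : V → V → ℝ} {u v : V} {t : ℝ} {C : Finset V} (hu : u ∉ C) (hv : v ∉ C)
    (a a' : V → ℝ) (ha : ∀ c ∈ C, a' c = a c) : Phi (setm p u v t) a' C = Phi p a C := by
  unfold Phi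
  apply EX_congr
  · intro c hc
    rw [ha c hc]
  · intro L hL
    apply phi_congr
    rw [Finset.union_sdiff_of_subset hL]
    intro i hi j hj _
    exact setm_of_ne (fun h => hu (h.1 ▸ hi)) (fun h => hv (h.1 ▸ hi))

theorem W_one {p : V → V → ℝ} (hs : ∀ i j, i ≠ j → p i j + p j i = 1) {u v : V} (huv : u ≠ v)
    (t : ℝ) {C : Finset V} (hu : u ∉ C) (hv : v ∉ C) :
    W (setm p u v t) (insert u C) u = Phi p (p u) C := by
  rw [W_insert (setm_add hs huv t) hu]
  exact Phi_setm hu hv _ _ fun c hc =>
    setm_of_ne (fun h => hv (h.2 ▸ hc)) (fun h => huv h.1)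

theorem one_team {p : V → V → ℝ} (hs : ∀ i j, i ≠ j → p i j + p j i = 1) {u v : V}
    (huv : u ≠ v) (t : ℝ) {M : Finset V} (hu : u ∉ M) (hv : v ∉ M) :
    (M.card + 2) * W (setm p u v t) (insert u (insert v M)) u
      = t * ∏ w ∈ M, p u w + t * NN p (p u) (p v) M
        + ∑ w ∈ M, (p u w * p v w * EX (fun c => p c w) (M.erase w)
            (fun C => W (setm p u v t) (insert u (insert v C)) u)
          + p u w * (1 - p v w) * EX (fun c => p c w) (M.erase w) (Phi p (p u))) := by
  set q := setm p u v t with hq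
  have hqs := setm_add hs huv t
  rw [← hq] at hqs
  have hu' : u ∉ insert v M := fun h => (Finset.mem_insert.1 h).elim huv hu
  have hquv : q u v = t := by simp [hq, setm]
  have hqvu : q v u = 1 - t := by
    have := hqs u v huv
    linarith
  have hqw : ∀ c w, c ∈ M → w ∈ M → q c w = p c w := fun c w hc _ =>
    setm_of_ne (fun h => hu (h.1 ▸ hc)) (fun h => hv (h.1 ▸ hc))
  have hqu : ∀ w ∈ M, q u w = p u w := fun w hw =>
    setm_of_ne (fun h => hv (h.2 ▸ hw)) (fun h => huv h.1)
  have hqv : ∀ w ∈ M, q v w = p v w := fun w hw =>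
    setm_of_ne (fun h => huv h.1.symm) (fun h => hu (h.2 ▸ hw))
  have h0 := W_rec hqs (insert u (insert v M)) u
  rw [Finset.card_insert_of_notMem hu', Finset.card_insert_of_notMem hv,
    Finset.sum_insert hu', Finset.sum_insert hv, Finset.erase_insert hu'] at h0
  -- `u` is the king
  have h1 : EX (fun c => q c u) (insert v M) (nxt q u u) = t * ∏ w ∈ M, p u w := by
    have h2 : EX (fun c => q c u) (insert v M) (nxt q u u)
        = EX (fun c => q c u) (insert v M) (fun C => if C = ∅ then 1 else 0) :=
      EX_congr (fun _ _ => rfl) fun C hC => nxt_self hqs (fun h => hu' (hC h))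
    rw [h2, EX_isEmpty, Finset.prod_insert hv, hqvu]
    have h3 : ∏ c ∈ M, (1 - q c u) = ∏ w ∈ M, p u w := by
      refine Finset.prod_congr rfl fun w hw => ?_
      have h4 := hqs u w (fun h => hu (h ▸ hw))
      rw [hqu w hw] at h4
      linarith
    rw [h3]
    ring
  -- `v` is the king
  have h2 : EX (fun c => q c v) ((insert u (insert v M)).erase v) (nxt q v u)
      = t * NN p (p u) (p v) M := by
    have e1 : (insert u (insert v M)).erase v = insert u M := by
      rw [ins_comm, Finset.erase_insert]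
      exact fun h => (Finset.mem_insert.1 h).elim (fun h => huv h.symm) hv
    rw [e1, EX_insert _ hu]
    have e2 : EX (fun c => q c v) M (nxt q v u) = 0 := by
      rw [← EX_zero (fun c => q c v) M]
      exact EX_congr (fun _ _ => rfl) fun C hC => nxt_notMem hqs huv (fun h => hu (hC h))
    have e3 : EX (fun c => q c v) M (fun C => nxt q v u (insert u C)) = NN p (p u) (p v) M := by
      unfold NN
      refine EX_congr (fun c hc => ?_) fun C hC => ?_
      · have h4 := hqs c v (fun h => hv (h ▸ hc))
        rw [hqv c hc] at h4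
        linarith
      · rw [nxt_insert]
        exact W_one hs huv t (fun h => hu (hC h)) (fun h => hv (hC h))
    rw [e2, e3, hquv]
    ring
  -- another team is the king
  have h3 : ∀ w ∈ M, EX (fun c => q c w) ((insert u (insert v M)).erase w) (nxt q w u)
      = p u w * p v w * EX (fun c => p c w) (M.erase w) (fun C => W q (insert u (insert v C)) u)
          + p u w * (1 - p v w) * EX (fun c => p c w) (M.erase w) (Phi p (p u)) := by
    intro w hw
    have huw : u ≠ w := fun h => hu (h ▸ hw)
    have hvw : v ≠ w := fun h => hv (h ▸ hw)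
    have hvM : v ∉ M.erase w := fun h => hv (Finset.mem_of_mem_erase h)
    have huM : u ∉ insert v (M.erase w) := fun h => (Finset.mem_insert.1 h).elim huv
      (fun h => hu (Finset.mem_of_mem_erase h))
    rw [Finset.erase_insert_of_ne huw, Finset.erase_insert_of_ne hvw, EX_insert _ huM]
    have e1 : EX (fun c => q c w) (insert v (M.erase w)) (nxt q w u) = 0 := by
      rw [← EX_zero (fun c => q c w) (insert v (M.erase w))]
      exact EX_congr (fun _ _ => rfl) fun C hC => nxt_notMem hqs huw (fun h => huM (hC h))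
    have e2 : EX (fun c => q c w) (insert v (M.erase w)) (fun C => nxt q w u (insert u C))
        = p v w * EX (fun c => p c w) (M.erase w) (fun C => W q (insert u (insert v C)) u)
          + (1 - p v w) * EX (fun c => p c w) (M.erase w) (Phi p (p u)) := by
      rw [EX_insert _ hvM, hqv w hw]
      congr 1
      · congr 1
        refine EX_congr (fun c hc => hqw c w (Finset.mem_of_mem_erase hc) hw) fun C hC => ?_
        rw [nxt_insert]
      · congr 1
        refine EX_congr (fun c hc => hqw c w (Finset.mem_of_mem_erase hc) hw) fun C hC => ?_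
        rw [nxt_insert]
        exact W_one hs huv t (fun h => hu (Finset.mem_of_mem_erase (hC h)))
          (fun h => hv (Finset.mem_of_mem_erase (hC h)))
    rw [e1, e2, hqu w hw]
    ring
  rw [h1, h2, Finset.sum_congr rfl h3] at h0
  push_cast at h0
  linarith

/-- the probability that `u` or `v` is selected, if `u` beats `v` with probability `t` -/
noncomputable def SS (p : V → V → ℝ) (u v : V) (t : ℝ) (M : Finset V) : ℝ :=
  W (setm p u v t) (insert u (insert v M)) u + W (setm p u v t) (insert u (insert v M)) v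

theorem SS_rec {p : V → V → ℝ} (hs : ∀ i j, i ≠ j → p i j + p j i = 1) {u v : V}
    (huv : u ≠ v) (t : ℝ) {M : Finset V} (hu : u ∉ M) (hv : v ∉ M) :
    (M.card + 2) * SS p u v t M
      = t * ∏ w ∈ M, p u w + t * NN p (p u) (p v) M
        + (1 - t) * ∏ w ∈ M, p v w + (1 - t) * NN p (p v) (p u) M
        + ∑ w ∈ M, (p u w * p v w * EX (fun c => p c w) (M.erase w) (SS p u v t)
          + (p u w * (1 - p v w) * EX (fun c => p c w) (M.erase w) (Phi p (p u))
          + p v w * (1 - p u w) * EX (fun c => p c w) (M.erase w) (Phi p (p v)))) := by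
  have h1 := one_team hs huv t hu hv
  have h2 := one_team hs huv.symm (1 - t) hv hu
  rw [← setm_comm huv] at h2
  have h3 : insert v (insert u M) = insert u (insert v M) := ins_comm _ _ _
  rw [h3] at h2
  have h4 : ∀ w ∈ M, p u w * p v w * EX (fun c => p c w) (M.erase w) (SS p u v t)
      = p u w * p v w * EX (fun c => p c w) (M.erase w)
            (fun C => W (setm p u v t) (insert u (insert v C)) u)
        + p v w * p u w * EX (fun c => p c w) (M.erase w)
            (fun C => W (setm p u v t) (insert v (insert u C)) v) := by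
    intro w _
    have h5 : EX (fun c => p c w) (M.erase w) (SS p u v t)
        = EX (fun c => p c w) (M.erase w) (fun C => W (setm p u v t) (insert u (insert v C)) u
          + W (setm p u v t) (insert v (insert u C)) v) := by
      refine EX_congr (fun _ _ => rfl) fun C _ => ?_
      rw [SS, ins_comm v u C]
    rw [h5, EX_add]
    ring
  have h6 : ∑ w ∈ M, (p u w * p v w * EX (fun c => p c w) (M.erase w) (SS p u v t)
          + (p u w * (1 - p v w) * EX (fun c => p c w) (M.erase w) (Phi p (p u))
          + p v w * (1 - p u w) * EX (fun c => p c w) (M.erase w) (Phi p (p v))))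
      = ∑ w ∈ M, (p u w * p v w * EX (fun c => p c w) (M.erase w)
            (fun C => W (setm p u v t) (insert u (insert v C)) u)
          + p u w * (1 - p v w) * EX (fun c => p c w) (M.erase w) (Phi p (p u)))
        + ∑ w ∈ M, (p v w * p u w * EX (fun c => p c w) (M.erase w)
            (fun C => W (setm p u v t) (insert v (insert u C)) v)
          + p v w * (1 - p u w) * EX (fun c => p c w) (M.erase w) (Phi p (p v))) := by
    rw [← Finset.sum_add_distrib]
    refine Finset.sum_congr rfl fun w hw => ?_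
    rw [h4 w hw]
    ring
  rw [h6, SS, mul_add, h1, h2]
  ring

/-- the derivative -/
noncomputable def DD (p : V → V → ℝ) (u v : V) (M : Finset V) : ℝ := SS p u v 1 M - SS p u v 0 M

theorem DD_rec {p : V → V → ℝ} (hs : ∀ i j, i ≠ j → p i j + p j i = 1) {u v : V}
    (huv : u ≠ v) {M : Finset V} (hu : u ∉ M) (hv : v ∉ M) :
    (M.card + 2) * DD p u v M
      = (NN p (p u) (p v) M - NN p (p v) (p u) M + (∏ w ∈ M, p u w - ∏ w ∈ M, p v w))
        + ∑ w ∈ M, p u w * p v w * EX (fun c => p c w) (M.erase w) (DD p u v) := by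
  have h1 := SS_rec hs huv 1 hu hv
  have h0 := SS_rec hs huv 0 hu hv
  rw [DD, mul_sub, h1, h0]
  have h2 : ∑ w ∈ M, p u w * p v w * EX (fun c => p c w) (M.erase w) (DD p u v)
      = ∑ w ∈ M, (p u w * p v w * EX (fun c => p c w) (M.erase w) (SS p u v 1)
          + (p u w * (1 - p v w) * EX (fun c => p c w) (M.erase w) (Phi p (p u))
          + p v w * (1 - p u w) * EX (fun c => p c w) (M.erase w) (Phi p (p v))))
        - ∑ w ∈ M, (p u w * p v w * EX (fun c => p c w) (M.erase w) (SS p u v 0)
          + (p u w * (1 - p v w) * EX (fun c => p c w) (M.erase w) (Phi p (p u))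
          + p v w * (1 - p u w) * EX (fun c => p c w) (M.erase w) (Phi p (p v)))) := by
    rw [← Finset.sum_sub_distrib]
    refine Finset.sum_congr rfl fun w _ => ?_
    have h3 : EX (fun c => p c w) (M.erase w) (DD p u v)
        = EX (fun c => p c w) (M.erase w) (SS p u v 1)
          - EX (fun c => p c w) (M.erase w) (SS p u v 0) := by
      rw [← EX_sub]; rfl
    rw [h3]
    ring
  rw [h2]
  ring

/-- the dependence on the probability that `u` beats `v` is affine -/
theorem SS_affine {p : V → V → ℝ} (hs : ∀ i j, i ≠ j → p i j + p j i = 1) {u v : V}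
    (huv : u ≠ v) (t : ℝ) (M : Finset V) (hu : u ∉ M) (hv : v ∉ M) :
    SS p u v t M = SS p u v 0 M + t * DD p u v M := by
  induction hn : M.card using Nat.strong_induction_on generalizing M with
  | _ n ih =>
    have h1 := SS_rec hs huv t hu hv
    have h0 := SS_rec hs huv 0 hu hv
    have hD := DD_rec hs huv hu hv
    have h2 : ∀ w ∈ M, p u w * p v w * EX (fun c => p c w) (M.erase w) (SS p u v t)
        = p u w * p v w * EX (fun c => p c w) (M.erase w) (SS p u v 0)
          + t * (p u w * p v w * EX (fun c => p c w) (M.erase w) (DD p u v)) := by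
      intro w hw
      have h3 : EX (fun c => p c w) (M.erase w) (SS p u v t)
          = EX (fun c => p c w) (M.erase w) (fun C => SS p u v 0 C + t * DD p u v C) := by
        refine EX_congr (fun _ _ => rfl) fun C hC => ?_
        have h6 := Finset.card_le_card hC
        have h7 := Finset.card_erase_lt_of_mem hw
        exact ih _ (by omega) C (fun h => hu (Finset.mem_of_mem_erase (hC h)))
          (fun h => hv (Finset.mem_of_mem_erase (hC h))) rfl
      rw [h3, EX_add, EX_mul]
      ring
    have h4 : ∑ w ∈ M, (p u w * p v w * EX (fun c => p c w) (M.erase w) (SS p u v t)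
          + (p u w * (1 - p v w) * EX (fun c => p c w) (M.erase w) (Phi p (p u))
          + p v w * (1 - p u w) * EX (fun c => p c w) (M.erase w) (Phi p (p v))))
        = ∑ w ∈ M, (p u w * p v w * EX (fun c => p c w) (M.erase w) (SS p u v 0)
          + (p u w * (1 - p v w) * EX (fun c => p c w) (M.erase w) (Phi p (p u))
          + p v w * (1 - p u w) * EX (fun c => p c w) (M.erase w) (Phi p (p v))))
          + t * ∑ w ∈ M, p u w * p v w * EX (fun c => p c w) (M.erase w) (DD p u v) := by
      rw [Finset.mul_sum, ← Finset.sum_add_distrib]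
      refine Finset.sum_congr rfl fun w hw => ?_
      rw [h2 w hw]
      ring
    rw [h4] at h1
    have hpos : ((M.card : ℝ) + 2) ≠ 0 := by positivity
    refine mul_left_cancel₀ hpos ?_
    rw [mul_add, h1, h0]
    have h5 : ((M.card : ℝ) + 2) * (t * DD p u v M) = t * (((M.card : ℝ) + 2) * DD p u v M) := by
      ring
    rw [h5, hD]
    ring

theorem DD_bound {p : V → V → ℝ} {x : ℝ} (hx : 1 / 2 ≤ x) (hx1 : x ≤ 1)
    (hp : ∀ i j, i ≠ j → p i j ≤ x) (hs : ∀ i j, i ≠ j → p i j + p j i = 1) {u v : V}
    (huv : u ≠ v) (M : Finset V) (hu : u ∉ M) (hv : v ∉ M) :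
    |DD p u v M| ≤ (2 * x - 1) / 3 ∧ (M = ∅ → DD p u v M = 0) ∧
      (∀ w, M = {w} → DD p u v M = (p u w - p v w) / 3) := by
  have hlow : ∀ i j, i ≠ j → 1 - x ≤ p i j := fun i j hij => by
    have := hp j i hij.symm
    have := hs i j hij
    linarith
  have hρ : 0 ≤ 2 * x - 1 := by linarith
  -- the empty set
  have hempty : DD p u v ∅ = 0 := by
    have h1 := DD_rec hs huv (Finset.notMem_empty u) (Finset.notMem_empty v)
    have h2 : ∀ a b : V → ℝ, NN p a b ∅ = 1 := by
      intro a b
      rw [NN, EX_empty, Phi, EX_empty, Finset.empty_sdiff, phi_empty]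
    rw [h2, h2] at h1
    simp at h1
    exact h1
  -- one team
  have hone : ∀ w, w ≠ u → w ≠ v → DD p u v {w} = (p u w - p v w) / 3 := by
    intro w hwu hwv
    have h1 := DD_rec hs huv (M := {w}) (fun h => hwu (Finset.mem_singleton.1 h).symm)
      (fun h => hwv (Finset.mem_singleton.1 h).symm)
    have h2 := NN_swap hx hx1 hp hs (a := p u) (b := p v) (M := {w})
      (fun j hj => by
        rw [Finset.mem_singleton] at hj; subst hj
        linarith [hlow u j hwu.symm])
      (fun j hj => by
        rw [Finset.mem_singleton] at hj; subst hj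
        linarith [hp u j hwu.symm])
      (fun j hj => by
        rw [Finset.mem_singleton] at hj; subst hj
        linarith [hlow v j hwv.symm])
      (fun j hj => by
        rw [Finset.mem_singleton] at hj; subst hj
        linarith [hp v j hwv.symm])
    have h3 : ({w} : Finset V).erase w = ∅ := by simp
    rw [Finset.sum_singleton, h3, Finset.prod_empty, sub_self, mul_zero, mul_zero] at h2
    have h4 : NN p (p u) (p v) {w} - NN p (p v) (p u) {w} = 0 :=
      abs_eq_zero.1 (le_antisymm h2 (abs_nonneg _))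
    rw [h4, Finset.sum_singleton, h3, EX_empty, hempty, Finset.prod_singleton,
      Finset.prod_singleton, Finset.card_singleton] at h1
    push_cast at h1
    linarith
  refine ⟨?_, fun h => by rw [h, hempty], fun w h => ?_⟩
  · induction hn : M.card using Nat.strong_induction_on generalizing M with
    | _ n ih =>
      rcases Nat.lt_or_ge M.card 2 with h2 | h2
      · rcases Nat.lt_or_ge M.card 1 with h1 | h1
        · have : M = ∅ := Finset.card_eq_zero.1 (by omega)
          rw [this, hempty, abs_zero]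
          linarith
        · obtain ⟨w, rfl⟩ := Finset.card_eq_one.1 (by omega : M.card = 1)
          have hwu : w ≠ u := fun h => hu (h ▸ Finset.mem_singleton_self w)
          have hwv : w ≠ v := fun h => hv (h ▸ Finset.mem_singleton_self w)
          rw [hone w hwu hwv, abs_le]
          have e1 := hp u w hwu.symm
          have e2 := hp v w hwv.symm
          have e3 := hlow u w hwu.symm
          have e4 := hlow v w hwv.symm
          constructor <;> linarith
      · have h1 := DD_rec hs huv hu hv
        have hne : ∀ j ∈ M, u ≠ j ∧ v ≠ j := fun j hj =>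
          ⟨fun h => hu (h ▸ hj), fun h => hv (h ▸ hj)⟩
        have h3 := total_bound hx hx1 hp hs M (p u) (p v)
          (fun j hj => ⟨hlow u j (hne j hj).1, hp u j (hne j hj).1⟩)
          (fun j hj => ⟨hlow v j (hne j hj).2, hp v j (hne j hj).2⟩) h2
        have h4 : |∑ w ∈ M, p u w * p v w * EX (fun c => p c w) (M.erase w) (DD p u v)|
            ≤ ∑ w ∈ M, p u w * p v w * ((2 * x - 1) / 3) := by
          refine (Finset.abs_sum_le_sum_abs _ _).trans (Finset.sum_le_sum fun w hw => ?_)
          have e1 : 0 ≤ p u w * p v w := mul_nonneg (by linarith [hlow u w (hne w hw).1])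
            (by linarith [hlow v w (hne w hw).2])
          rw [abs_mul, abs_of_nonneg e1]
          refine mul_le_mul_of_nonneg_left ?_ e1
          rw [← EX_const (fun c => p c w) (M.erase w) ((2 * x - 1) / 3)]
          refine EX_abs_le (fun c hc => ?_) (fun c hc => ?_) fun C hC => ?_
          · linarith [hlow c w (Finset.mem_erase.1 hc).1]
          · linarith [hp c w (Finset.mem_erase.1 hc).1]
          · have h6 := Finset.card_le_card hC
            have h7 := Finset.card_erase_lt_of_mem hw
            exact ih _ (by omega) C (fun h => hu (Finset.mem_of_mem_erase (hC h)))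
              (fun h => hv (Finset.mem_of_mem_erase (hC h))) rfl
        have h5 : ((M.card : ℝ) + 2) * |DD p u v M| ≤ ((M.card : ℝ) + 2) * ((2 * x - 1) / 3) := by
          have e1 : ((M.card : ℝ) + 2) * |DD p u v M| = |((M.card : ℝ) + 2) * DD p u v M| := by
            rw [abs_mul, abs_of_nonneg (by positivity : (0:ℝ) ≤ (M.card : ℝ) + 2)]
          rw [e1, h1]
          refine (abs_add_le _ _).trans ((add_le_add h3 h4).trans (le_of_eq ?_))
          rw [Finset.sum_sub_distrib, Finset.sum_const, nsmul_eq_mul, ← Finset.sum_mul]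
          ring
        exact le_of_mul_le_mul_left h5 (by positivity)
  · subst h
    exact hone w (fun h => hu (h ▸ Finset.mem_singleton_self w))
      (fun h => hv (h ▸ Finset.mem_singleton_self w))

end Pool.Agent.X77.RK
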