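import Pool.Agent.X77.RK.Ex

/-!
# The probability that a team survives given its own results

`phi p L H`: the probability that the team `u` is selected by Randomized King of the Hill played on
`{u} ∪ L ∪ H`, when `u` loses to the teams of `L` and beats the teams of `H`, and the other
matches are independent, with the probabilities `p`.
-/

set_option autoImplicit false

namespace Pool.Agent.X77.RK

open Finset

variable {V : Type} [DecidableEq V]

/-- with at most `n` rounds -/
noncomputable def phiN (p : V → V → ℝ) : ℕ → Finset V → Finset V → ℝ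
  | 0, _, _ => 0
  | (n + 1), L, H => ((if L = ∅ then 1 else 0) + ∑ w ∈ H,
      EX (fun c => p c w) ((L ∪ H).erase w) (fun C => phiN p n (L ∩ C) (H ∩ C)))
      / ((L ∪ H).card + 1)

noncomputable def phi (p : V → V → ℝ) (L H : Finset V) : ℝ := phiN p ((L ∪ H).card + 1) L H

theorem card_inter_lt {L H C : Finset V} {w : V} (hw : w ∈ H) (hC : C ⊆ (L ∪ H).erase w) :
    (L ∩ C ∪ H ∩ C).card < (L ∪ H).card := by
  have h1 : L ∩ C ∪ H ∩ C ⊆ (L ∪ H).erase w := by
    rw [← Finset.union_inter_distrib_right]
    exact Finset.inter_subset_right.trans hC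
  exact lt_of_le_of_lt (Finset.card_le_card h1)
    (Finset.card_erase_lt_of_mem (Finset.mem_union_right _ hw))

theorem phiN_eq (p : V → V → ℝ) : ∀ (n m : ℕ) (L H : Finset V), (L ∪ H).card < n →
    (L ∪ H).card < m → phiN p n L H = phiN p m L H := by
  intro n
  induction n with
  | zero => intro m L H h; omega
  | succ n ih =>
    intro m L H h1 h2
    cases m with
    | zero => omega
    | succ m =>
      simp only [phiN]
      congr 2
      refine Finset.sum_congr rfl fun w hw => EX_congr (fun _ _ => rfl) fun C hC => ?_
      have := card_inter_lt hw hC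
      exact ih m _ _ (by omega) (by omega)

theorem phi_rec (p : V → V → ℝ) (L H : Finset V) :
    phi p L H = ((if L = ∅ then 1 else 0) + ∑ w ∈ H,
      EX (fun c => p c w) ((L ∪ H).erase w) (fun C => phi p (L ∩ C) (H ∩ C)))
      / ((L ∪ H).card + 1) := by
  rw [phi, phiN]
  congr 2
  refine Finset.sum_congr rfl fun w hw => EX_congr (fun _ _ => rfl) fun C hC => ?_
  have := card_inter_lt hw hC
  exact phiN_eq p _ _ _ _ (by omega) (by omega)

theorem phi_rec' (p : V → V → ℝ) (L H : Finset V) :
    ((L ∪ H).card + 1) * phi p L H = (if L = ∅ then 1 else 0) + ∑ w ∈ H,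
      EX (fun c => p c w) ((L ∪ H).erase w) (fun C => phi p (L ∩ C) (H ∩ C)) := by
  rw [phi_rec]
  have : ((L ∪ H).card : ℝ) + 1 ≠ 0 := by positivity
  field_simp

theorem phi_congr {p p' : V → V → ℝ} {L H : Finset V}
    (h : ∀ i ∈ L ∪ H, ∀ j ∈ L ∪ H, i ≠ j → p i j = p' i j) : phi p L H = phi p' L H := by
  induction hn : (L ∪ H).card using Nat.strong_induction_on generalizing L H with
  | _ n ih =>
    rw [phi_rec, phi_rec]
    congr 2
    refine Finset.sum_congr rfl fun w hw => EX_congr (fun c hc => ?_) fun C hC => ?_
    · have h1 := Finset.mem_erase.1 hc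
      exact h c h1.2 w (Finset.mem_union_right _ hw) h1.1
    · have h2 := card_inter_lt hw hC
      have h3 : L ∩ C ∪ H ∩ C ⊆ L ∪ H := by
        rw [← Finset.union_inter_distrib_right]
        exact Finset.inter_subset_left
      exact ih _ (hn ▸ h2) (fun i hi j hj hij => h i (h3 hi) j (h3 hj) hij) rfl

theorem phi_empty (p : V → V → ℝ) (H : Finset V) : phi p ∅ H = 1 := by
  induction hn : H.card using Nat.strong_induction_on generalizing H with
  | _ n ih =>
    rw [phi_rec]
    have h1 : ∑ w ∈ H, EX (fun c => p c w) ((∅ ∪ H).erase w)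
        (fun C => phi p (∅ ∩ C) (H ∩ C)) = ∑ w ∈ H, (1 : ℝ) := by
      refine Finset.sum_congr rfl fun w hw => ?_
      rw [← EX_const (fun c => p c w) ((∅ ∪ H).erase w) 1]
      refine EX_congr (fun _ _ => rfl) fun C hC => ?_
      have h2 := card_inter_lt hw hC
      rw [Finset.empty_inter, Finset.empty_union, Finset.empty_union] at h2
      rw [Finset.empty_inter]
      exact ih _ (hn ▸ h2) _ rfl
    rw [h1, Finset.sum_const, nsmul_eq_mul, mul_one, if_pos rfl, Finset.empty_union, add_comm]
    exact div_self (by positivity)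

theorem phi_right_empty (p : V → V → ℝ) {L : Finset V} (hL : L ≠ ∅) : phi p L ∅ = 0 := by
  rw [phi_rec]
  simp [hL]

theorem phi_bounds {p : V → V → ℝ} (h0 : ∀ i j, i ≠ j → 0 ≤ p i j) (h1 : ∀ i j, i ≠ j → p i j ≤ 1)
    (L H : Finset V) : 0 ≤ phi p L H ∧ phi p L H ≤ 1 := by
  induction hn : (L ∪ H).card using Nat.strong_induction_on generalizing L H with
  | _ n ih =>
    rw [phi_rec]
    have hpos : (0 : ℝ) < (L ∪ H).card + 1 := by positivity
    have h2 : ∀ w ∈ H, 0 ≤ EX (fun c => p c w) ((L ∪ H).erase w)
        (fun C => phi p (L ∩ C) (H ∩ C)) ∧ EX (fun c => p c w) ((L ∪ H).erase w)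
        (fun C => phi p (L ∩ C) (H ∩ C)) ≤ 1 := by
      intro w hw
      constructor
      · rw [← EX_zero (fun c => p c w) ((L ∪ H).erase w)]
        refine EX_mono (fun c hc => h0 c w (Finset.mem_erase.1 hc).1)
          (fun c hc => h1 c w (Finset.mem_erase.1 hc).1) fun C hC => ?_
        exact (ih _ (hn ▸ card_inter_lt hw hC) _ _ rfl).1
      · rw [← EX_const (fun c => p c w) ((L ∪ H).erase w) 1]
        refine EX_mono (fun c hc => h0 c w (Finset.mem_erase.1 hc).1)
          (fun c hc => h1 c w (Finset.mem_erase.1 hc).1) fun C hC => ?_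
        exact (ih _ (hn ▸ card_inter_lt hw hC) _ _ rfl).2
    have h3 : (0 : ℝ) ≤ (if L = ∅ then 1 else 0) ∧ (if L = ∅ then 1 else 0) ≤ (1 : ℝ) := by
      split_ifs <;> norm_num
    have h4 : ∑ w ∈ H, EX (fun c => p c w) ((L ∪ H).erase w)
        (fun C => phi p (L ∩ C) (H ∩ C)) ≤ H.card := by
      refine (Finset.sum_le_sum fun w hw => (h2 w hw).2).trans ?_
      simp
    have h5 : (H.card : ℝ) ≤ (L ∪ H).card := by
      exact_mod_cast Finset.card_le_card Finset.subset_union_right
    refine ⟨div_nonneg (add_nonneg h3.1 (Finset.sum_nonneg fun w hw => (h2 w hw).1)) hpos.le, ?_⟩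
    rw [div_le_one hpos]
    linarith [h3.2]

/-- the effect of one more beaten team -/
noncomputable def gam (p : V → V → ℝ) (i : V) (L H : Finset V) : ℝ :=
  phi p L (insert i H) - phi p L H

theorem gam_empty (p : V → V → ℝ) (i : V) (H : Finset V) : gam p i ∅ H = 0 := by
  rw [gam, phi_empty, phi_empty, sub_self]

theorem gam_rec {p : V → V → ℝ} {i : V} {L H : Finset V}
    (hiL : i ∉ L) (hiH : i ∉ H) :
    ((L ∪ H).card + 2) * gam p i L H
      = EX (fun c => p c i) (L ∪ H) (fun C => phi p (L ∩ C) (H ∩ C)) - phi p L H
        + ∑ w ∈ H, p i w * EX (fun c => p c w) ((L ∪ H).erase w)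
            (fun C => gam p i (L ∩ C) (H ∩ C)) := by
  have hi : i ∉ L ∪ H := fun h => (Finset.mem_union.1 h).elim hiL hiH
  have h1 := phi_rec' p L (insert i H)
  have h2 := phi_rec' p L H
  have hU : L ∪ insert i H = insert i (L ∪ H) := by
    rw [Finset.union_insert]
  rw [hU, Finset.card_insert_of_notMem hi, Finset.sum_insert hiH, Finset.erase_insert hi] at h1
  have h3 : EX (fun c => p c i) (L ∪ H) (fun C => phi p (L ∩ C) (insert i H ∩ C))
      = EX (fun c => p c i) (L ∪ H) (fun C => phi p (L ∩ C) (H ∩ C)) := by
    refine EX_congr (fun _ _ => rfl) fun C hC => ?_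
    rw [Finset.insert_inter_of_notMem (fun h => hi (hC h))]
  have h4 : ∑ w ∈ H, EX (fun c => p c w) ((insert i (L ∪ H)).erase w)
        (fun C => phi p (L ∩ C) (insert i H ∩ C))
      = ∑ w ∈ H, EX (fun c => p c w) ((L ∪ H).erase w) (fun C => phi p (L ∩ C) (H ∩ C))
        + ∑ w ∈ H, p i w * EX (fun c => p c w) ((L ∪ H).erase w)
            (fun C => gam p i (L ∩ C) (H ∩ C)) := by
    rw [← Finset.sum_add_distrib]
    refine Finset.sum_congr rfl fun w hw => ?_
    have hwi : w ≠ i := fun h => hiH (h ▸ hw)
    have hi' : i ∉ (L ∪ H).erase w := fun h => hi (Finset.mem_of_mem_erase h)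
    rw [Finset.erase_insert_of_ne hwi.symm, EX_insert _ hi']
    have e1 : EX (fun c => p c w) ((L ∪ H).erase w)
          (fun C => phi p (L ∩ insert i C) (insert i H ∩ insert i C))
        = EX (fun c => p c w) ((L ∪ H).erase w)
            (fun C => phi p (L ∩ C) (H ∩ C) + gam p i (L ∩ C) (H ∩ C)) := by
      refine EX_congr (fun _ _ => rfl) fun C hC => ?_
      rw [Finset.inter_insert_of_notMem hiL, ← Finset.insert_inter_distrib, gam]
      ring
    have e2 : EX (fun c => p c w) ((L ∪ H).erase w)
          (fun C => phi p (L ∩ C) (insert i H ∩ C))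
        = EX (fun c => p c w) ((L ∪ H).erase w) (fun C => phi p (L ∩ C) (H ∩ C)) := by
      refine EX_congr (fun _ _ => rfl) fun C hC => ?_
      rw [Finset.insert_inter_of_notMem (fun h => hi' (hC h))]
    rw [e1, e2, EX_add]
    ring
  rw [h3, h4] at h1
  rw [gam]
  push_cast at h1
  linarith

section bound

variable {p : V → V → ℝ} {x : ℝ}

/-- the constant -/
noncomputable def rr (x : ℝ) : ℝ := 1 - x * (1 - x)

theorem gam_bound (hx : 1 / 2 ≤ x) (hx1 : x ≤ 1) (hp : ∀ i j, i ≠ j → p i j ≤ x)
    (hs : ∀ i j, i ≠ j → p i j + p j i = 1) (i : V) (L H : Finset V) (hd : Disjoint L H)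
    (hiL : i ∉ L) (hiH : i ∉ H) (hL : L ≠ ∅) : |gam p i L H| ≤ rr x / 3 := by
  have h0 : ∀ i j, i ≠ j → 0 ≤ p i j := fun i j hij => by
    have := hp j i hij.symm
    have := hs i j hij
    linarith
  have h1 : ∀ i j, i ≠ j → p i j ≤ 1 := fun i j hij => (hp i j hij).trans hx1
  have hr : 3 / 4 ≤ rr x := by unfold rr; nlinarith [sq_nonneg (x - 1 / 2)]
  have hr1 : x ≤ rr x := by unfold rr; nlinarith [sq_nonneg (x - 1)]
  have hr2 : rr x ≤ 1 := by unfold rr; nlinarith
  induction hn : (L ∪ H).card using Nat.strong_induction_on generalizing L H with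
  | _ n ih =>
    have hrec := gam_rec (p := p) hiL hiH
    have hc : (L ∪ H).card = L.card + H.card := Finset.card_union_of_disjoint hd
    -- the inner terms
    have hin : ∀ w ∈ H, |p i w * EX (fun c => p c w) ((L ∪ H).erase w)
        (fun C => gam p i (L ∩ C) (H ∩ C))|
        ≤ x * (rr x / 3 * (1 - ∏ c ∈ L, (1 - p c w))) := by
      intro w hw
      have hwL : w ∉ L := fun h => (Finset.disjoint_left.1 hd h) hw
      have hwi : i ≠ w := fun h => hiH (h ▸ hw)
      rw [abs_mul, abs_of_nonneg (h0 i w hwi)]
      have hLs : L ⊆ (L ∪ H).erase w := by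
        intro c hcL
        exact Finset.mem_erase.2 ⟨fun h => hwL (h ▸ hcL), Finset.mem_union_left _ hcL⟩
      have e1 : |EX (fun c => p c w) ((L ∪ H).erase w) (fun C => gam p i (L ∩ C) (H ∩ C))|
          ≤ EX (fun c => p c w) ((L ∪ H).erase w)
            (fun C => rr x / 3 * (1 - (if L ∩ C = ∅ then 1 else 0))) := by
        refine EX_abs_le (fun c hc' => h0 c w (Finset.mem_erase.1 hc').1)
          (fun c hc' => h1 c w (Finset.mem_erase.1 hc').1) fun C hC => ?_
        by_cases hLC : L ∩ C = ∅
        · rw [hLC, gam_empty, if_pos rfl, sub_self, mul_zero, abs_zero]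
        · rw [if_neg hLC, sub_zero, mul_one]
          exact ih _ (hn ▸ card_inter_lt hw hC) _ _
            (Finset.disjoint_of_subset_left Finset.inter_subset_left
              (Finset.disjoint_of_subset_right Finset.inter_subset_left hd))
            (fun h => hiL (Finset.mem_inter.1 h).1) (fun h => hiH (Finset.mem_inter.1 h).1) hLC rfl
      have e2 : EX (fun c => p c w) ((L ∪ H).erase w)
            (fun C => rr x / 3 * (1 - (if L ∩ C = ∅ then 1 else 0)))
          = rr x / 3 * (1 - ∏ c ∈ L, (1 - p c w)) := by
        rw [EX_mul, EX_sub, EX_const]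
        congr 2
        rw [← EX_isEmpty (fun c => p c w) L,
          ← EX_inter_subset (fun c => p c w) hLs (fun C => if C = ∅ then (1:ℝ) else 0)]
        exact EX_congr (fun _ _ => rfl) fun C _ => by rw [Finset.inter_comm]
      rw [e2] at e1
      have e3 : 0 ≤ rr x / 3 * (1 - ∏ c ∈ L, (1 - p c w)) := (abs_nonneg _).trans e1
      exact mul_le_mul (hp i w hwi) e1 (abs_nonneg _) (by linarith)
    -- the first difference
    have hfirst : |EX (fun c => p c i) (L ∪ H) (fun C => phi p (L ∩ C) (H ∩ C)) - phi p L H| ≤ 1 := by
      have e1 := phi_bounds h0 h1 L H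
      have e2 : 0 ≤ EX (fun c => p c i) (L ∪ H) (fun C => phi p (L ∩ C) (H ∩ C)) := by
        rw [← EX_zero (fun c => p c i) (L ∪ H)]
        refine EX_mono (fun c hc' => h0 c i ?_) (fun c hc' => h1 c i ?_)
          fun C hC => (phi_bounds h0 h1 _ _).1
        · rintro rfl; exact (Finset.mem_union.1 hc').elim hiL hiH
        · rintro rfl; exact (Finset.mem_union.1 hc').elim hiL hiH
      have e3 : EX (fun c => p c i) (L ∪ H) (fun C => phi p (L ∩ C) (H ∩ C)) ≤ 1 := by
        rw [← EX_const (fun c => p c i) (L ∪ H) 1]
        refine EX_mono (fun c hc' => h0 c i ?_) (fun c hc' => h1 c i ?_)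
          fun C hC => (phi_bounds h0 h1 _ _).2
        · rintro rfl; exact (Finset.mem_union.1 hc').elim hiL hiH
        · rintro rfl; exact (Finset.mem_union.1 hc').elim hiL hiH
      rw [abs_le]
      constructor <;> linarith [e1.1, e1.2]
    have hmain : ((L ∪ H).card + 2) * |gam p i L H|
        ≤ |EX (fun c => p c i) (L ∪ H) (fun C => phi p (L ∩ C) (H ∩ C)) - phi p L H|
          + ∑ w ∈ H, x * (rr x / 3 * (1 - ∏ c ∈ L, (1 - p c w))) := by
      have e1 : ((L ∪ H).card + 2) * |gam p i L H| = |((L ∪ H).card + 2) * gam p i L H| := by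
        rw [abs_mul, abs_of_nonneg (by positivity : (0:ℝ) ≤ (L ∪ H).card + 2)]
      rw [e1, hrec]
      refine (abs_add_le _ _).trans (add_le_add le_rfl ?_)
      exact (Finset.abs_sum_le_sum_abs _ _).trans (Finset.sum_le_sum hin)
    have hLpos : 1 ≤ L.card := Finset.card_pos.2 (Finset.nonempty_iff_ne_empty.2 hL)
    rw [hc] at hmain
    push_cast at hmain
    have hgoal : ∀ g : ℝ, ((L.card : ℝ) + H.card + 2) * g ≤ ((L.card : ℝ) + H.card + 2) * (rr x / 3)
        → g ≤ rr x / 3 := fun g hg => le_of_mul_le_mul_left hg (by positivity)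
    apply hgoal
    refine hmain.trans ?_
    rcases Nat.lt_or_ge 1 L.card with hL2 | hL2
    · -- at least two teams beat `u`
      have e1 : ∑ w ∈ H, x * (rr x / 3 * (1 - ∏ c ∈ L, (1 - p c w))) ≤ ∑ w ∈ H, rr x / 3 := by
        refine Finset.sum_le_sum fun w hw => ?_
        have hwL : ∀ c ∈ L, c ≠ w := fun c hc' h => (Finset.disjoint_left.1 hd hc') (h ▸ hw)
        have e2 : 0 ≤ ∏ c ∈ L, (1 - p c w) := Finset.prod_nonneg fun c hc' => by
          linarith [h1 c w (hwL c hc')]
        have e3 : ∏ c ∈ L, (1 - p c w) ≤ 1 := Finset.prod_le_one (fun c hc' => by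
          linarith [h1 c w (hwL c hc')]) (fun c hc' => by linarith [h0 c w (hwL c hc')])
        have e4 : rr x / 3 * (1 - ∏ c ∈ L, (1 - p c w)) ≤ rr x / 3 * 1 :=
          mul_le_mul_of_nonneg_left (by linarith) (by linarith)
        have e5 : 0 ≤ rr x / 3 * (1 - ∏ c ∈ L, (1 - p c w)) :=
          mul_nonneg (by linarith) (by linarith)
        nlinarith
      rw [Finset.sum_const, nsmul_eq_mul] at e1
      have e2 : (2 : ℝ) ≤ L.card := by exact_mod_cast hL2
      nlinarith
    · have hL1 : L.card = 1 := le_antisymm hL2 hLpos
      obtain ⟨w₀, rfl⟩ := Finset.card_eq_one.1 hL1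
      have hiw : i ≠ w₀ := fun h => hiL (h ▸ Finset.mem_singleton_self _)
      have e1 : ∑ w ∈ H, x * (rr x / 3 * (1 - ∏ c ∈ ({w₀} : Finset V), (1 - p c w)))
          ≤ ∑ w ∈ H, x * (rr x / 3 * x) := by
        refine Finset.sum_le_sum fun w hw => ?_
        have hne : w₀ ≠ w := fun h => (Finset.disjoint_left.1 hd (Finset.mem_singleton_self w₀))
          (h ▸ hw)
        rw [Finset.prod_singleton]
        have e2 := hp w₀ w hne
        refine mul_le_mul_of_nonneg_left (mul_le_mul_of_nonneg_left ?_ (by linarith)) (by linarith)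
        linarith
      rw [Finset.sum_const, nsmul_eq_mul] at e1
      rw [hL1]
      push_cast
      -- the number of beaten teams
      rcases Nat.lt_or_ge H.card 2 with hH | hH
      · -- few
        have key : |EX (fun c => p c i) ({w₀} ∪ H)
            (fun C => phi p ({w₀} ∩ C) (H ∩ C)) - phi p {w₀} H| ≤ x := by
          rcases Nat.eq_zero_or_pos H.card with hH0 | hH0
          · have hH' : H = ∅ := Finset.card_eq_zero.1 hH0
            subst hH'
            rw [phi_right_empty p (Finset.singleton_ne_empty w₀), Finset.union_empty,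
              EX_singleton, Finset.inter_self, Finset.empty_inter, Finset.inter_empty,
              Finset.empty_inter, phi_right_empty p (Finset.singleton_ne_empty w₀), phi_empty]
            have e3 := hs i w₀ hiw
            have e4 := hp i w₀ hiw
            have e5 := h0 i w₀ hiw
            rw [abs_le]
            constructor <;> linarith
          · have hH1 : H.card = 1 := by omega
            obtain ⟨w, rfl⟩ := Finset.card_eq_one.1 hH1
            have hne : w₀ ≠ w := fun h => (Finset.disjoint_left.1 hd
              (Finset.mem_singleton_self w₀)) (h ▸ Finset.mem_singleton_self w)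
            have hiw' : i ≠ w := fun h => hiH (h ▸ Finset.mem_singleton_self _)
            have hw1 : w₀ ∉ ({w} : Finset V) := fun h => hne (Finset.mem_singleton.1 h)
            -- the value on two teams
            have e3 : 3 * phi p {w₀} {w} = 1 - p w₀ w := by
              have e4 := phi_rec' p {w₀} {w}
              rw [if_neg (Finset.singleton_ne_empty w₀), Finset.sum_singleton] at e4
              have e5 : (({w₀} : Finset V) ∪ {w}).erase w = {w₀} := by
                ext c
                simp only [mem_erase, mem_union, mem_singleton]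
                constructor
                · rintro ⟨h1', h2' | h2'⟩
                  · exact h2'
                  · exact absurd h2' h1'
                · rintro rfl
                  exact ⟨hne, Or.inl rfl⟩
              have e6 : (({w₀} : Finset V) ∪ {w}).card = 2 := by
                rw [hc, Finset.card_singleton, Finset.card_singleton]
              have e7 : ({w} : Finset V) ∩ {w₀} = ∅ := by
                rw [Finset.singleton_inter_of_notMem]
                exact fun h => hne (Finset.mem_singleton.1 h).symm
              rw [e5, e6, EX_singleton, Finset.inter_self, Finset.inter_empty,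
                Finset.inter_empty, e7, phi_right_empty p (Finset.singleton_ne_empty w₀),
                phi_empty] at e4
              push_cast at e4
              linarith
            have e4 : EX (fun c => p c i) ({w₀} ∪ {w})
                (fun C => phi p ({w₀} ∩ C) ({w} ∩ C))
                = p w₀ i * (p w i * phi p {w₀} {w}) + (1 - p w₀ i) := by
              have e5 : ({w₀} : Finset V) ∪ {w} = insert w₀ {w} := rfl
              rw [e5, EX_insert _ hw1]
              have e6 : EX (fun c => p c i) {w} (fun C => phi p ({w₀} ∩ C) ({w} ∩ C)) = 1 := by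
                rw [← EX_const (fun c => p c i) {w} 1]
                refine EX_congr (fun _ _ => rfl) fun C hC => ?_
                have e7 : ({w₀} : Finset V) ∩ C = ∅ :=
                  Finset.singleton_inter_of_notMem (fun h => hw1 (hC h))
                rw [e7, phi_empty]
              have e7 : EX (fun c => p c i) {w}
                  (fun C => phi p ({w₀} ∩ insert w₀ C) ({w} ∩ insert w₀ C))
                  = p w i * phi p {w₀} {w} := by
                rw [EX_singleton]
                have e8 : ({w₀} : Finset V) ∩ insert w₀ {w} = {w₀} := by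
                  ext c
                  simp only [mem_inter, mem_singleton, mem_insert]
                  tauto
                have e9 : ({w} : Finset V) ∩ insert w₀ {w} = {w} := by
                  ext c
                  simp only [mem_inter, mem_singleton, mem_insert]
                  tauto
                have e10 : ({w₀} : Finset V) ∩ insert w₀ ∅ = {w₀} := by
                  ext c; simp
                have e11 : ({w} : Finset V) ∩ insert w₀ ∅ = ∅ := by
                  ext c
                  simp only [insert_empty_eq, mem_inter, mem_singleton, notMem_empty, iff_false,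
                    not_and]
                  rintro rfl h
                  exact hne h.symm
                rw [e8, e9, e10, e11, phi_right_empty p (Finset.singleton_ne_empty w₀)]
                ring
              rw [e6, e7]
              ring
            rw [e4]
            have f1 := hs i w₀ hiw
            have f2 := hp i w₀ hiw
            have f3 := h0 w₀ i hiw.symm
            have f4 := h1 w₀ i hiw.symm
            have f5 := h0 w i hiw'.symm
            have f6 := h1 w i hiw'.symm
            have f7 := h0 w₀ w hne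
            have f8 := h1 w₀ w hne
            have f9 : 0 ≤ phi p {w₀} {w} := by linarith
            have f10 : phi p {w₀} {w} ≤ 1 / 3 := by linarith
            have f11 : p w₀ i * (p w i * phi p {w₀} {w}) ≤ phi p {w₀} {w} := by
              have g1 : p w i * phi p {w₀} {w} ≤ phi p {w₀} {w} := by nlinarith
              have g2 : 0 ≤ p w i * phi p {w₀} {w} := mul_nonneg f5 f9
              nlinarith
            have f12 : 0 ≤ p w₀ i * (p w i * phi p {w₀} {w}) :=
              mul_nonneg f3 (mul_nonneg f5 f9)
            rw [abs_le]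
            constructor <;> linarith
        have hHc : (H.card : ℝ) ≤ 1 := by
          have : H.card ≤ 1 := by omega
          exact_mod_cast this
        have hHc0 : (0 : ℝ) ≤ H.card := by positivity
        have e5 : x * x ≤ 1 := by nlinarith
        have e6 : x * (rr x / 3 * x) ≤ rr x / 3 := by
          have := mul_le_mul_of_nonneg_left e5 (by linarith : 0 ≤ rr x / 3)
          linarith
        have e7 : (H.card : ℝ) * (x * (rr x / 3 * x)) ≤ H.card * (rr x / 3) :=
          mul_le_mul_of_nonneg_left e6 hHc0
        nlinarith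
      · -- many
        have hHc : (2 : ℝ) ≤ H.card := by exact_mod_cast hH
        have e6 : 1 + (H.card : ℝ) * (x * (rr x / 3 * x)) ≤ (1 + H.card + 2) * (rr x / 3) := by
          have e7 : 0 ≤ (1 - x) * (2 - 3 * x + 2 * x ^ 3) := by
            refine mul_nonneg (by linarith) ?_
            nlinarith [sq_nonneg (x - 7 / 10), mul_nonneg (by linarith : (0:ℝ) ≤ x)
              (sq_nonneg (x - 7 / 10))]
          have e8 : 3 ≤ rr x * (3 + 2 * (1 - x ^ 2)) := by
            unfold rr
            nlinarith
          have e9 : rr x * (3 + 2 * (1 - x ^ 2)) ≤ rr x * (3 + H.card * (1 - x ^ 2)) := by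
            refine mul_le_mul_of_nonneg_left ?_ (by linarith)
            have : 0 ≤ 1 - x ^ 2 := by nlinarith
            nlinarith
          nlinarith
        linarith

end bound

end Pool.Agent.X77.RK
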