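import Pool.Agent.X77.RK.Phi

/-!
# Randomized King of the Hill for probabilistic tournaments
-/

set_option autoImplicit false

namespace Pool.Agent.X77.RK

open Finset

variable {V : Type} [DecidableEq V]

/-- The probability that the team `i` is selected by Randomized King of the Hill when the set of the
remaining teams is `R` and at most `k` rounds are played; `p i j` is the probability that `i` beats
`j`. In a round a uniformly random team `h` of `R` plays all other teams of `R`; `B` is the set of
the teams which beat `h`; if it is empty, only `h` remains, and otherwise `B` remains. -/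
noncomputable def win (p : V → V → ℝ) : ℕ → Finset V → V → ℝ
  | 0, _, _ => 0
  | (k + 1), R, i => (∑ h ∈ R, ∑ B ∈ (R.erase h).powerset,
      (∏ w ∈ B, p w h) * (∏ w ∈ (R.erase h) \ B, p h w)
        * (if B = ∅ then (if i = h then 1 else 0) else win p k B i)) / R.card

/-- The probability that the team `i` is selected when `R` remains; `R.card` rounds suffice. -/
noncomputable def W (p : V → V → ℝ) (R : Finset V) (i : V) : ℝ := win p R.card R i

theorem win_eq (p : V → V → ℝ) (i : V) : ∀ (n m : ℕ) (R : Finset V), R.card ≤ n → R.card ≤ m →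
    win p n R i = win p m R i := by
  intro n
  induction n with
  | zero =>
    intro m R h1 h2
    have : R = ∅ := Finset.card_eq_zero.1 (by omega)
    subst this
    cases m with
    | zero => rfl
    | succ m => simp [win]
  | succ n ih =>
    intro m R h1 h2
    cases m with
    | zero =>
      have : R = ∅ := Finset.card_eq_zero.1 (by omega)
      subst this
      simp [win]
    | succ m =>
      simp only [win]
      congr 1
      refine Finset.sum_congr rfl fun h hh => Finset.sum_congr rfl fun B hB => ?_
      have h3 := Finset.card_le_card (Finset.mem_powerset.1 hB)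
      have h4 := Finset.card_erase_lt_of_mem hh
      rw [ih m B (by omega) (by omega)]

/-- what happens when the set of the teams which beat the king `h` is `B` -/
noncomputable def nxt (p : V → V → ℝ) (h i : V) (B : Finset V) : ℝ :=
  if B = ∅ then (if i = h then 1 else 0) else W p B i

theorem W_rec {p : V → V → ℝ} (hs : ∀ i j, i ≠ j → p i j + p j i = 1) (R : Finset V) (i : V) :
    R.card * W p R i = ∑ h ∈ R, EX (fun c => p c h) (R.erase h) (nxt p h i) := by
  by_cases hR : R = ∅
  · subst hR; simp
  have hpos : (0 : ℝ) < R.card := by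
    exact_mod_cast Finset.card_pos.2 (Finset.nonempty_iff_ne_empty.2 hR)
  obtain ⟨k, hk⟩ : ∃ k, R.card = k + 1 := ⟨R.card - 1, by
    have := Finset.card_pos.2 (Finset.nonempty_iff_ne_empty.2 hR); omega⟩
  have h0 : W p R i = (∑ h ∈ R, ∑ B ∈ (R.erase h).powerset,
      (∏ w ∈ B, p w h) * (∏ w ∈ (R.erase h) \ B, p h w)
        * (if B = ∅ then (if i = h then 1 else 0) else win p k B i)) / R.card := by
    rw [W, hk, win, hk]
  rw [h0, mul_div_cancel₀ _ hpos.ne']
  refine Finset.sum_congr rfl fun h hh => ?_
  unfold EX
  refine Finset.sum_congr rfl fun B hB => ?_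
  have hB' := Finset.mem_powerset.1 hB
  have h3 := Finset.card_le_card hB'
  have h4 := Finset.card_erase_lt_of_mem hh
  rw [nxt, W, win_eq p i k B.card B (by omega) le_rfl]
  congr 2
  refine Finset.prod_congr rfl fun w hw => ?_
  have hw' := (Finset.mem_sdiff.1 hw).1
  have := hs h w (Finset.mem_erase.1 hw').1.symm
  linarith

theorem W_notMem {p : V → V → ℝ} (hs : ∀ i j, i ≠ j → p i j + p j i = 1) {R : Finset V} {i : V}
    (hi : i ∉ R) : W p R i = 0 := by
  induction hn : R.card using Nat.strong_induction_on generalizing R with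
  | _ n ih =>
    by_cases hR : R = ∅
    · subst hR; simp [W, win]
    have hpos : (0 : ℝ) < R.card := by
      exact_mod_cast Finset.card_pos.2 (Finset.nonempty_iff_ne_empty.2 hR)
    have h1 := W_rec hs R i
    have h2 : ∑ h ∈ R, EX (fun c => p c h) (R.erase h) (nxt p h i) = 0 := by
      refine Finset.sum_eq_zero fun h hh => ?_
      rw [← EX_zero (fun c => p c h) (R.erase h)]
      refine EX_congr (fun _ _ => rfl) fun B hB => ?_
      rw [nxt]
      split_ifs with h3 h4
      · exact absurd hh (h4 ▸ hi)
      · rfl
      · have h5 := Finset.card_le_card hB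
        have h6 := Finset.card_erase_lt_of_mem hh
        exact ih _ (by omega) (fun h => hi (Finset.mem_of_mem_erase (hB h))) rfl
    rw [h2] at h1
    rcases mul_eq_zero.1 h1 with h3 | h3
    · exact absurd h3 hpos.ne'
    · exact h3

theorem nxt_insert {p : V → V → ℝ} (h i : V) (j : V) (B : Finset V) :
    nxt p h i (insert j B) = W p (insert j B) i := by
  rw [nxt, if_neg (Finset.insert_ne_empty _ _)]

theorem nxt_notMem {p : V → V → ℝ} (hs : ∀ i j, i ≠ j → p i j + p j i = 1) {h i : V}
    (hih : i ≠ h) {B : Finset V} (hi : i ∉ B) : nxt p h i B = 0 := by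
  rw [nxt, if_neg hih, W_notMem hs hi]
  split_ifs <;> rfl

theorem nxt_self {p : V → V → ℝ} (hs : ∀ i j, i ≠ j → p i j + p j i = 1) {i : V}
    {B : Finset V} (hi : i ∉ B) : nxt p i i B = if B = ∅ then 1 else 0 := by
  rw [nxt, if_pos rfl, W_notMem hs hi]

/-- The probability that a team with the winning probabilities `a` against the teams of `B` is
selected from `B` and this team. -/
noncomputable def Phi (p : V → V → ℝ) (a : V → ℝ) (B : Finset V) : ℝ :=
  EX (fun w => 1 - a w) B (fun L => phi p L (B \ L))

theorem Phi_rec (p : V → V → ℝ) (a : V → ℝ) (B : Finset V) :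
    (B.card + 1) * Phi p a B = ∏ w ∈ B, a w
      + ∑ w ∈ B, a w * EX (fun c => p c w) (B.erase w) (Phi p a) := by
  have h1 : ∀ L, L ⊆ B → (B.card + 1) * phi p L (B \ L) = (if L = ∅ then 1 else 0)
      + ∑ w ∈ B, (if w ∈ L then 0 else EX (fun c => p c w) (B.erase w)
          (fun C => phi p (L ∩ C) (C \ (L ∩ C)))) := by
    intro L hL
    have h2 := phi_rec' p L (B \ L)
    rw [Finset.union_sdiff_of_subset hL] at h2
    rw [h2]
    congr 1
    rw [← Finset.sum_filter_add_sum_filter_not B (fun w => w ∈ L)]
    have h3 : ∑ w ∈ B.filter (fun w => w ∈ L), (if w ∈ L then 0 else EX (fun c => p c w)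
        (B.erase w) (fun C => phi p (L ∩ C) (C \ (L ∩ C)))) = 0 :=
      Finset.sum_eq_zero fun w hw => if_pos (Finset.mem_filter.1 hw).2
    rw [h3, zero_add]
    have h4 : B \ L = B.filter (fun w => ¬ w ∈ L) := by
      ext w; simp [mem_sdiff]
    rw [← h4]
    refine Finset.sum_congr rfl fun w hw => ?_
    rw [if_neg (Finset.mem_sdiff.1 hw).2]
    refine EX_congr (fun _ _ => rfl) fun C hC => ?_
    congr 1
    ext c
    simp only [mem_inter, mem_sdiff, not_and]
    constructor
    · rintro ⟨⟨_, h5⟩, h6⟩
      exact ⟨h6, fun h => absurd h h5⟩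
    · rintro ⟨h5, h6⟩
      exact ⟨⟨Finset.mem_of_mem_erase (hC h5), fun h => h6 h h5⟩, h5⟩
  have h5 : (B.card + 1) * Phi p a B = EX (fun w => 1 - a w) B (fun L => (if L = ∅ then 1 else 0)
      + ∑ w ∈ B, (if w ∈ L then 0 else EX (fun c => p c w) (B.erase w)
          (fun C => phi p (L ∩ C) (C \ (L ∩ C))))) := by
    rw [Phi, ← EX_mul]
    exact EX_congr (fun _ _ => rfl) fun L hL => h1 L hL
  rw [h5, EX_add, EX_isEmpty, EX_sum]
  congr 1
  · exact Finset.prod_congr rfl fun w _ => by ring
  · refine Finset.sum_congr rfl fun w hw => ?_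
    rw [EX_mem_factor _ hw, EX_swap]
    have h6 : (1 : ℝ) - (1 - a w) = a w := by ring
    rw [h6]
    congr 1
    refine EX_congr (fun _ _ => rfl) fun C hC => ?_
    rw [Phi, ← EX_inter_subset (fun w => 1 - a w) hC (fun L => phi p L (C \ L))]

/-- the selection probability of a team in terms of its own results -/
theorem W_insert {p : V → V → ℝ} (hs : ∀ i j, i ≠ j → p i j + p j i = 1) {u : V} {B : Finset V}
    (hu : u ∉ B) : W p (insert u B) u = Phi p (p u) B := by
  induction hn : B.card using Nat.strong_induction_on generalizing B with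
  | _ n ih =>
    have h1 := W_rec hs (insert u B) u
    rw [Finset.card_insert_of_notMem hu, Finset.sum_insert hu, Finset.erase_insert hu] at h1
    have h2 : EX (fun c => p c u) B (nxt p u u) = ∏ w ∈ B, p u w := by
      have h3 : EX (fun c => p c u) B (nxt p u u)
          = EX (fun c => p c u) B (fun C => if C = ∅ then 1 else 0) :=
        EX_congr (fun _ _ => rfl) fun C hC => nxt_self hs (fun h => hu (hC h))
      rw [h3, EX_isEmpty]
      refine Finset.prod_congr rfl fun w hw => ?_
      have := hs u w (fun h => hu (h ▸ hw))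
      linarith
    have h3 : ∀ w ∈ B, EX (fun c => p c w) ((insert u B).erase w) (nxt p w u)
        = p u w * EX (fun c => p c w) (B.erase w) (Phi p (p u)) := by
      intro w hw
      have huw : u ≠ w := fun h => hu (h ▸ hw)
      rw [Finset.erase_insert_of_ne huw, EX_insert _ (fun h => hu (Finset.mem_of_mem_erase h))]
      have h4 : EX (fun c => p c w) (B.erase w) (nxt p w u) = 0 := by
        rw [← EX_zero (fun c => p c w) (B.erase w)]
        exact EX_congr (fun _ _ => rfl) fun C hC => nxt_notMem hs huw
          (fun h => hu (Finset.mem_of_mem_erase (hC h)))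
      have h5 : EX (fun c => p c w) (B.erase w) (fun C => nxt p w u (insert u C))
          = EX (fun c => p c w) (B.erase w) (Phi p (p u)) := by
        refine EX_congr (fun _ _ => rfl) fun C hC => ?_
        rw [nxt_insert]
        have h6 := Finset.card_le_card hC
        have h7 := Finset.card_erase_lt_of_mem hw
        exact ih _ (by omega) (fun h => hu (Finset.mem_of_mem_erase (hC h))) rfl
      rw [h4, h5]
      ring
    rw [h2, Finset.sum_congr rfl h3, ← Phi_rec] at h1
    push_cast at h1
    exact mul_left_cancel₀ (by positivity : ((B.card : ℝ) + 1) ≠ 0) h1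

end Pool.Agent.X77.RK
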