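import Pool.Agent.X77.RK.Rule

/-!
# Exchanging the results of two teams
-/

set_option autoImplicit false

namespace Pool.Agent.X77.RK

open Finset

variable {V : Type} [DecidableEq V]

/-- the second team is the king; the first team, with the winning probabilities `a`, is selected -/
noncomputable def NN (p : V → V → ℝ) (a b : V → ℝ) (M : Finset V) : ℝ :=
  EX (fun w => 1 - b w) M (Phi p a)

theorem Phi_insert (p : V → V → ℝ) (a : V → ℝ) {i : V} {B : Finset V} (hi : i ∉ B) :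
    Phi p a (insert i B) = (1 - a i) * EX (fun w => 1 - a w) B (fun L => phi p (insert i L) (B \ L))
      + a i * EX (fun w => 1 - a w) B (fun L => phi p L (insert i (B \ L))) := by
  rw [Phi, EX_insert _ hi]
  have h1 : (1 : ℝ) - (1 - a i) = a i := by ring
  rw [h1]
  congr 2
  · refine EX_congr (fun _ _ => rfl) fun L hL => ?_
    congr 1
    ext c
    simp only [mem_sdiff, mem_insert, not_or]
    constructor
    · rintro ⟨h2 | h2, h3, h4⟩
      · exact absurd h2 h3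
      · exact ⟨h2, h4⟩
    · rintro ⟨h2, h3⟩
      exact ⟨Or.inr h2, fun h => hi (h ▸ h2), h3⟩
  · refine EX_congr (fun _ _ => rfl) fun L hL => ?_
    rw [Finset.insert_sdiff_of_notMem _ (fun h => hi (hL h))]

/-- dependence on one coordinate -/
theorem NN_insert (p : V → V → ℝ) (a b : V → ℝ) {i : V} {M : Finset V} (hi : i ∉ M) :
    NN p a b (insert i M)
      = (1 - b i) * ((1 - a i) * EX (fun w => 1 - b w) M (fun B =>
            EX (fun w => 1 - a w) B (fun L => phi p (insert i L) (B \ L)))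
          + a i * EX (fun w => 1 - b w) M (fun B =>
            EX (fun w => 1 - a w) B (fun L => phi p L (insert i (B \ L)))))
        + b i * EX (fun w => 1 - b w) M (Phi p a) := by
  rw [NN, EX_insert _ hi]
  have h1 : (1 : ℝ) - (1 - b i) = b i := by ring
  have h2 : EX (fun w => 1 - b w) M (fun C => Phi p a (insert i C))
      = EX (fun w => 1 - b w) M (fun C =>
          (1 - a i) * EX (fun w => 1 - a w) C (fun L => phi p (insert i L) (C \ L))
          + a i * EX (fun w => 1 - a w) C (fun L => phi p L (insert i (C \ L)))) := by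
    apply EX_congr
    · intro c _
      rfl
    · intro B hB
      exact Phi_insert p a (fun h => hi (hB h))
  rw [h1, h2, EX_add, EX_mul, EX_mul]

theorem NN_congr {p : V → V → ℝ} {a a' b b' : V → ℝ} {M : Finset V} (ha : ∀ i ∈ M, a i = a' i)
    (hb : ∀ i ∈ M, b i = b' i) : NN p a b M = NN p a' b' M := by
  unfold NN Phi
  apply EX_congr
  · intro c hc
    rw [hb c hc]
  · intro B hB
    apply EX_congr
    · intro c hc
      rw [ha c (hB hc)]
    · intro L hL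
      rfl

section

variable {p : V → V → ℝ} {x : ℝ}

theorem NN_step (hx : 1 / 2 ≤ x) (hx1 : x ≤ 1) (hp : ∀ i j, i ≠ j → p i j ≤ x)
    (hs : ∀ i j, i ≠ j → p i j + p j i = 1) {a b a' b' : V → ℝ} {i : V} {M : Finset V}
    (hi : i ∉ M) (ha0 : ∀ j ∈ M, 0 ≤ a j) (ha1 : ∀ j ∈ M, a j ≤ 1) (hb0 : ∀ j ∈ M, 0 ≤ b j)
    (hb1 : ∀ j ∈ M, b j ≤ 1)
    (h1 : ∀ j ∈ M, a' j = a j) (h2 : ∀ j ∈ M, b' j = b j) (h3 : a' i = b i) (h4 : b' i = a i) :
    |NN p a b (insert i M) - NN p a' b' (insert i M)|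
      ≤ |a i - b i| * (rr x / 3 * (1 - ∏ j ∈ M, (1 - (1 - a j) * (1 - b j)))) := by
  have e1 : EX (fun w => 1 - b' w) M (fun B =>
        EX (fun w => 1 - a' w) B (fun L => phi p (insert i L) (B \ L)))
      = EX (fun w => 1 - b w) M (fun B =>
        EX (fun w => 1 - a w) B (fun L => phi p (insert i L) (B \ L))) :=
    EX_congr (fun c hc => by rw [h2 c hc]) fun B hB =>
      EX_congr (fun c hc => by rw [h1 c (hB hc)]) fun L hL => rfl
  have e2 : EX (fun w => 1 - b' w) M (fun B =>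
        EX (fun w => 1 - a' w) B (fun L => phi p L (insert i (B \ L))))
      = EX (fun w => 1 - b w) M (fun B =>
        EX (fun w => 1 - a w) B (fun L => phi p L (insert i (B \ L)))) :=
    EX_congr (fun c hc => by rw [h2 c hc]) fun B hB =>
      EX_congr (fun c hc => by rw [h1 c (hB hc)]) fun L hL => rfl
  have e3 : EX (fun w => 1 - b' w) M (Phi p a') = EX (fun w => 1 - b w) M (Phi p a) :=
    EX_congr (fun c hc => by rw [h2 c hc]) fun B hB =>
      EX_congr (fun c hc => by rw [h1 c (hB hc)]) fun L hL => rfl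
  rw [NN_insert p a b hi, NN_insert p a' b' hi, e1, e2, e3, h3, h4]
  set XL := EX (fun w => 1 - b w) M (fun B =>
        EX (fun w => 1 - a w) B (fun L => phi p (insert i L) (B \ L))) with hXL
  set XH := EX (fun w => 1 - b w) M (fun B =>
        EX (fun w => 1 - a w) B (fun L => phi p L (insert i (B \ L)))) with hXH
  set X0 := EX (fun w => 1 - b w) M (Phi p a) with hX0
  have e4 : (1 - b i) * ((1 - a i) * XL + a i * XH) + b i * X0
      - ((1 - a i) * ((1 - b i) * XL + b i * XH) + a i * X0) = (a i - b i) * (XH - X0) := by ring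
  rw [e4, abs_mul]
  refine mul_le_mul_of_nonneg_left ?_ (abs_nonneg _)
  have e5 : XH - X0 = EX (fun w => 1 - b w) M (fun B =>
        EX (fun w => 1 - a w) B (fun L => gam p i L (B \ L))) := by
    rw [hXH, hX0, ← EX_sub]
    refine EX_congr (fun _ _ => rfl) fun B hB => ?_
    rw [Phi, ← EX_sub]
    rfl
  rw [e5]
  have e6 : EX (fun w => 1 - b w) M (fun B => rr x / 3 * (1 - ∏ c ∈ B, a c))
      = rr x / 3 * (1 - ∏ j ∈ M, (1 - (1 - a j) * (1 - b j))) := by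
    rw [EX_mul, EX_sub, EX_const, EX_prod]
    congr 2
    exact Finset.prod_congr rfl fun j _ => by ring
  rw [← e6]
  refine EX_abs_le (fun c hc => by linarith [hb1 c hc]) (fun c hc => by linarith [hb0 c hc])
    fun B hB => ?_
  have e7 : EX (fun w => 1 - a w) B (fun L => rr x / 3 * (1 - (if L = ∅ then 1 else 0)))
      = rr x / 3 * (1 - ∏ c ∈ B, a c) := by
    rw [EX_mul, EX_sub, EX_const, EX_isEmpty]
    congr 2
    exact Finset.prod_congr rfl fun j _ => by ring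
  rw [← e7]
  refine EX_abs_le (fun c hc => by linarith [ha1 c (hB hc)])
    (fun c hc => by linarith [ha0 c (hB hc)]) fun L hL => ?_
  by_cases hLe : L = ∅
  · subst hLe
    rw [gam_empty, if_pos rfl, sub_self, mul_zero, abs_zero]
  · rw [if_neg hLe, sub_zero, mul_one]
    exact gam_bound hx hx1 hp hs i L (B \ L) Finset.disjoint_sdiff (fun h => hi (hB (hL h)))
      (fun h => hi (hB (Finset.mem_sdiff.1 h).1)) hLe

/-- the exchanged coordinates -/
def hyb (T : Finset V) (a b : V → ℝ) (j : V) : ℝ := if j ∈ T then b j else a j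

theorem NN_hyb (hx : 1 / 2 ≤ x) (hx1 : x ≤ 1) (hp : ∀ i j, i ≠ j → p i j ≤ x)
    (hs : ∀ i j, i ≠ j → p i j + p j i = 1) {a b : V → ℝ} {M : Finset V}
    (ha0 : ∀ j ∈ M, 0 ≤ a j) (ha1 : ∀ j ∈ M, a j ≤ 1) (hb0 : ∀ j ∈ M, 0 ≤ b j)
    (hb1 : ∀ j ∈ M, b j ≤ 1) (T : Finset V) (hT : T ⊆ M) :
    |NN p a b M - NN p (hyb T a b) (hyb T b a) M|
      ≤ ∑ i ∈ T, |a i - b i| * (rr x / 3 * (1 - ∏ j ∈ M.erase i, (1 - (1 - a j) * (1 - b j)))) := by
  induction T using Finset.induction_on with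
  | empty =>
    have h1 : NN p (hyb ∅ a b) (hyb ∅ b a) M = NN p a b M :=
      NN_congr (fun i _ => by simp [hyb]) (fun i _ => by simp [hyb])
    rw [h1, sub_self, abs_zero, Finset.sum_empty]
  | insert i T hi ih =>
    have hiM : i ∈ M := hT (Finset.mem_insert_self _ _)
    have hTM : T ⊆ M := fun j hj => hT (Finset.mem_insert_of_mem hj)
    have h1 := ih hTM
    rw [Finset.sum_insert hi, add_comm]
    have h2 : |NN p (hyb T a b) (hyb T b a) M
        - NN p (hyb (insert i T) a b) (hyb (insert i T) b a) M|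
        ≤ |a i - b i| * (rr x / 3 * (1 - ∏ j ∈ M.erase i, (1 - (1 - a j) * (1 - b j)))) := by
      have h3 := NN_step hx hx1 hp hs (a := hyb T a b) (b := hyb T b a)
        (a' := hyb (insert i T) a b) (b' := hyb (insert i T) b a) (i := i) (M := M.erase i)
        (Finset.notMem_erase i M)
        (fun j hj => by
          have hj' := Finset.mem_of_mem_erase hj
          unfold hyb; split_ifs
          · exact hb0 j hj'
          · exact ha0 j hj')
        (fun j hj => by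
          have hj' := Finset.mem_of_mem_erase hj
          unfold hyb; split_ifs
          · exact hb1 j hj'
          · exact ha1 j hj')
        (fun j hj => by
          have hj' := Finset.mem_of_mem_erase hj
          unfold hyb; split_ifs
          · exact ha0 j hj'
          · exact hb0 j hj')
        (fun j hj => by
          have hj' := Finset.mem_of_mem_erase hj
          unfold hyb; split_ifs
          · exact ha1 j hj'
          · exact hb1 j hj')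
        (fun j hj => by
          have hne := (Finset.mem_erase.1 hj).1
          simp [hyb, Finset.mem_insert, hne])
        (fun j hj => by
          have hne := (Finset.mem_erase.1 hj).1
          simp [hyb, Finset.mem_insert, hne])
        (by simp [hyb, hi])
        (by simp [hyb, hi])
      rw [Finset.insert_erase hiM] at h3
      have h4 : hyb T a b i = a i := by simp [hyb, hi]
      have h5 : hyb T b a i = b i := by simp [hyb, hi]
      rw [h4, h5] at h3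
      have h6 : ∏ j ∈ M.erase i, (1 - (1 - hyb T a b j) * (1 - hyb T b a j))
          = ∏ j ∈ M.erase i, (1 - (1 - a j) * (1 - b j)) := by
        refine Finset.prod_congr rfl fun j _ => ?_
        unfold hyb
        split_ifs
        · ring
        · ring
      rw [h6] at h3
      exact h3
    have h7 : NN p a b M - NN p (hyb (insert i T) a b) (hyb (insert i T) b a) M
        = (NN p a b M - NN p (hyb T a b) (hyb T b a) M)
          + (NN p (hyb T a b) (hyb T b a) M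
            - NN p (hyb (insert i T) a b) (hyb (insert i T) b a) M) := by ring
    rw [h7]
    exact (abs_add_le _ _).trans (add_le_add h1 h2)

theorem NN_swap (hx : 1 / 2 ≤ x) (hx1 : x ≤ 1) (hp : ∀ i j, i ≠ j → p i j ≤ x)
    (hs : ∀ i j, i ≠ j → p i j + p j i = 1) {a b : V → ℝ} {M : Finset V}
    (ha0 : ∀ j ∈ M, 0 ≤ a j) (ha1 : ∀ j ∈ M, a j ≤ 1) (hb0 : ∀ j ∈ M, 0 ≤ b j)
    (hb1 : ∀ j ∈ M, b j ≤ 1) :
    |NN p a b M - NN p b a M|
      ≤ ∑ i ∈ M, |a i - b i| * (rr x / 3 * (1 - ∏ j ∈ M.erase i, (1 - (1 - a j) * (1 - b j)))) := by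
  have h1 := NN_hyb hx hx1 hp hs ha0 ha1 hb0 hb1 M (Finset.Subset.refl M)
  have h2 : NN p (hyb M a b) (hyb M b a) M = NN p b a M :=
    NN_congr (fun i hi => by simp [hyb, hi]) (fun i hi => by simp [hyb, hi])
  rwa [h2] at h1

end

/-! ### Products -/

theorem prod_diff_le (a b : V → ℝ) (M : Finset V)
    (ha0 : ∀ j ∈ M, 0 ≤ a j) (ha1 : ∀ j ∈ M, a j ≤ 1) (hb0 : ∀ j ∈ M, 0 ≤ b j)
    (hb1 : ∀ j ∈ M, b j ≤ 1) :
    |∏ j ∈ M, a j - ∏ j ∈ M, b j|
      ≤ ∑ i ∈ M, |a i - b i| * ∏ j ∈ M.erase i, (1 - (1 - a j) * (1 - b j)) := by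
  induction M using Finset.induction_on with
  | empty => simp
  | insert i M hi ih =>
    have ha0' := fun j hj => ha0 j (Finset.mem_insert_of_mem hj)
    have ha1' := fun j hj => ha1 j (Finset.mem_insert_of_mem hj)
    have hb0' := fun j hj => hb0 j (Finset.mem_insert_of_mem hj)
    have hb1' := fun j hj => hb1 j (Finset.mem_insert_of_mem hj)
    have h1 := ih ha0' ha1' hb0' hb1'
    have hai := ha0 i (Finset.mem_insert_self _ _)
    have hai1 := ha1 i (Finset.mem_insert_self _ _)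
    have hbi := hb0 i (Finset.mem_insert_self _ _)
    have hbi1 := hb1 i (Finset.mem_insert_self _ _)
    rw [Finset.prod_insert hi, Finset.prod_insert hi, Finset.sum_insert hi, Finset.erase_insert hi]
    have h2 : ∑ k ∈ M, |a k - b k| * ∏ j ∈ (insert i M).erase k, (1 - (1 - a j) * (1 - b j))
        = (1 - (1 - a i) * (1 - b i)) * ∑ k ∈ M, |a k - b k| * ∏ j ∈ M.erase k,
            (1 - (1 - a j) * (1 - b j)) := by
      rw [Finset.mul_sum]
      refine Finset.sum_congr rfl fun k hk => ?_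
      have hne : i ≠ k := fun h => hi (h ▸ hk)
      rw [Finset.erase_insert_of_ne hne,
        Finset.prod_insert (fun h => hi (Finset.mem_of_mem_erase h))]
      ring
    rw [h2]
    have h3 : 0 ≤ ∏ j ∈ M, b j := Finset.prod_nonneg hb0'
    have h4 : ∏ j ∈ M, b j ≤ ∏ j ∈ M, (1 - (1 - a j) * (1 - b j)) := by
      refine Finset.prod_le_prod hb0' fun j hj => ?_
      nlinarith [ha0' j hj, hb1' j hj]
    have h5 : a i ≤ 1 - (1 - a i) * (1 - b i) := by nlinarith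
    have h6 : |a i * ∏ j ∈ M, a j - b i * ∏ j ∈ M, b j|
        ≤ a i * |∏ j ∈ M, a j - ∏ j ∈ M, b j| + |a i - b i| * ∏ j ∈ M, b j := by
      have h7 : a i * ∏ j ∈ M, a j - b i * ∏ j ∈ M, b j
          = a i * (∏ j ∈ M, a j - ∏ j ∈ M, b j) + (a i - b i) * ∏ j ∈ M, b j := by ring
      rw [h7]
      refine (abs_add_le _ _).trans (le_of_eq ?_)
      rw [abs_mul, abs_mul, abs_of_nonneg hai, abs_of_nonneg h3]
    refine h6.trans ?_
    have h8 : a i * |∏ j ∈ M, a j - ∏ j ∈ M, b j|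
        ≤ (1 - (1 - a i) * (1 - b i)) * ∑ k ∈ M, |a k - b k| * ∏ j ∈ M.erase k,
            (1 - (1 - a j) * (1 - b j)) :=
      mul_le_mul h5 h1 (abs_nonneg _) (by linarith)
    have h9 : |a i - b i| * ∏ j ∈ M, b j ≤ |a i - b i| * ∏ j ∈ M, (1 - (1 - a j) * (1 - b j)) :=
      mul_le_mul_of_nonneg_left h4 (abs_nonneg _)
    linarith

theorem rr_mul_le {x a b : ℝ} (hx : 1 / 2 ≤ x) (hx1 : x ≤ 1) (ha : 1 - x ≤ a) (ha' : a ≤ x)
    (hb : 1 - x ≤ b) (hb' : b ≤ x) : rr x * |a - b| ≤ (2 * x - 1) * (1 - a * b) := by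
  have key : ∀ a b : ℝ, 1 - x ≤ a → a ≤ x → 1 - x ≤ b → b ≤ x →
      rr x * (a - b) ≤ (2 * x - 1) * (1 - a * b) := by
    intro a b ha ha' hb hb'
    have h1 : (2 * x - 1) * (1 - a * b) - rr x * (a - b)
        = (x - a) * ((2 * x - 1) * b + rr x) + (b - (1 - x)) * (1 - x ^ 2) := by
      unfold rr; ring
    have h2 : 0 ≤ rr x := by unfold rr; nlinarith
    have h3 : 0 ≤ (x - a) * ((2 * x - 1) * b + rr x) :=
      mul_nonneg (by linarith) (add_nonneg (mul_nonneg (by linarith) (by linarith)) h2)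
    have h4 : 0 ≤ (b - (1 - x)) * (1 - x ^ 2) :=
      mul_nonneg (by linarith) (by nlinarith)
    linarith
  rcases abs_cases (a - b) with ⟨h, _⟩ | ⟨h, _⟩
  · rw [h]; exact key a b ha ha' hb hb'
  · rw [h]
    have := key b a hb hb' ha ha'
    nlinarith

theorem box1 {y x : ℝ} (g : ℝ → ℝ) (hg : ∀ t, g t = g 0 + (g 1 - g 0) * t) (h1 : 0 ≤ g y)
    (h2 : 0 ≤ g x) {t : ℝ} (ht1 : y ≤ t) (ht2 : t ≤ x) : 0 ≤ g t := by
  rw [hg] at h1 h2 ⊢
  rcases le_total 0 (g 1 - g 0) with h | h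
  · have := mul_le_mul_of_nonneg_left ht1 h
    linarith
  · have := mul_le_mul_of_nonpos_left ht2 h
    linarith

/-- the case of two teams -/
theorem two_teams {x a₁ b₁ a₂ b₂ : ℝ} (hx : 1 / 2 ≤ x) (hx1 : x ≤ 1)
    (ha₁ : 1 - x ≤ a₁) (ha₁' : a₁ ≤ x) (hb₁ : 1 - x ≤ b₁) (hb₁' : b₁ ≤ x)
    (ha₂ : 1 - x ≤ a₂) (ha₂' : a₂ ≤ x) (hb₂ : 1 - x ≤ b₂) (hb₂' : b₂ ≤ x) :
    3 * (a₁ * a₂ - b₁ * b₂) ≤ (2 * x - 1) * (2 + (1 - a₁ * b₁) * (1 - (1 - a₂) * (1 - b₂))
      + (1 - a₂ * b₂) * (1 - (1 - a₁) * (1 - b₁))) := by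
  have hρ : 0 ≤ 2 * x - 1 := by linarith
  have hz0 : 0 ≤ x * (1 - x) := mul_nonneg (by linarith) (by linarith)
  have hz1 : x * (1 - x) ≤ 1 / 4 := by nlinarith [sq_nonneg (x - 1 / 2)]
  -- the values of the polynomial at the vertices
  have g1 : 0 ≤ (2 * x - 1) * (2 * (1 - x * (1 - x)) ^ 2 - 1) := by
    refine mul_nonneg hρ ?_
    nlinarith
  have g2 : 0 ≤ (2 * x - 1) * (3 * (1 - x) + x * (1 - x) - 2 * (x * (1 - x)) ^ 2) := by
    refine mul_nonneg hρ ?_
    nlinarith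
  have g3 : 0 ≤ (2 * x - 1) * (3 * x + x * (1 - x) - 2 * (x * (1 - x)) ^ 2) := by
    refine mul_nonneg hρ ?_
    nlinarith
  have key : ∀ a₁ b₁ a₂ b₂ : ℝ, (a₁ = 1 - x ∨ a₁ = x) → (b₁ = 1 - x ∨ b₁ = x) →
      (a₂ = 1 - x ∨ a₂ = x) → (b₂ = 1 - x ∨ b₂ = x) →
      0 ≤ (2 * x - 1) * (2 + (1 - a₁ * b₁) * (1 - (1 - a₂) * (1 - b₂))
      + (1 - a₂ * b₂) * (1 - (1 - a₁) * (1 - b₁))) - 3 * (a₁ * a₂ - b₁ * b₂) := by
    intro a₁ b₁ a₂ b₂ h1 h2 h3 h4
    have hge : ∀ t, (t = 1 - x ∨ t = x) → 0 ≤ t ∧ t ≤ 1 := by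
      rintro t (rfl | rfl) <;> constructor <;> linarith
    have hpos : 0 ≤ (2 * x - 1) * (2 + (1 - a₁ * b₁) * (1 - (1 - a₂) * (1 - b₂))
      + (1 - a₂ * b₂) * (1 - (1 - a₁) * (1 - b₁))) := by
      have k1 := hge a₁ h1
      have k2 := hge b₁ h2
      have k3 := hge a₂ h3
      have k4 := hge b₂ h4
      have m1 : 0 ≤ 1 - a₁ * b₁ := by nlinarith
      have m2 : 0 ≤ 1 - a₂ * b₂ := by nlinarith
      have m3 : 0 ≤ 1 - (1 - a₂) * (1 - b₂) := by nlinarith
      have m4 : 0 ≤ 1 - (1 - a₁) * (1 - b₁) := by nlinarith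
      exact mul_nonneg hρ (by nlinarith [mul_nonneg m1 m3, mul_nonneg m2 m4])
    have n1 : 0 ≤ (2 * x - 1) * x := mul_nonneg hρ (by linarith)
    have n2 : 0 ≤ (2 * x - 1) * (1 - x) := mul_nonneg hρ (by linarith)
    rcases h1 with rfl | rfl <;> rcases h2 with rfl | rfl <;> rcases h3 with rfl | rfl <;>
      rcases h4 with rfl | rfl <;> linarith
  have step1 : ∀ a₁ b₁ a₂ : ℝ, (a₁ = 1 - x ∨ a₁ = x) → (b₁ = 1 - x ∨ b₁ = x) →
      (a₂ = 1 - x ∨ a₂ = x) → ∀ b₂, 1 - x ≤ b₂ → b₂ ≤ x →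
      0 ≤ (2 * x - 1) * (2 + (1 - a₁ * b₁) * (1 - (1 - a₂) * (1 - b₂))
      + (1 - a₂ * b₂) * (1 - (1 - a₁) * (1 - b₁))) - 3 * (a₁ * a₂ - b₁ * b₂) := by
    intro a₁ b₁ a₂ h1 h2 h3 b₂ hb hb'
    exact box1 (fun t => (2 * x - 1) * (2 + (1 - a₁ * b₁) * (1 - (1 - a₂) * (1 - t))
      + (1 - a₂ * t) * (1 - (1 - a₁) * (1 - b₁))) - 3 * (a₁ * a₂ - b₁ * t)) (fun t => by ring)
      (key a₁ b₁ a₂ (1 - x) h1 h2 h3 (Or.inl rfl)) (key a₁ b₁ a₂ x h1 h2 h3 (Or.inr rfl)) hb hb'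
  have step2 : ∀ a₁ b₁ : ℝ, (a₁ = 1 - x ∨ a₁ = x) → (b₁ = 1 - x ∨ b₁ = x) →
      ∀ a₂, 1 - x ≤ a₂ → a₂ ≤ x → ∀ b₂, 1 - x ≤ b₂ → b₂ ≤ x →
      0 ≤ (2 * x - 1) * (2 + (1 - a₁ * b₁) * (1 - (1 - a₂) * (1 - b₂))
      + (1 - a₂ * b₂) * (1 - (1 - a₁) * (1 - b₁))) - 3 * (a₁ * a₂ - b₁ * b₂) := by
    intro a₁ b₁ h1 h2 a₂ ha ha' b₂ hb hb'
    exact box1 (fun t => (2 * x - 1) * (2 + (1 - a₁ * b₁) * (1 - (1 - t) * (1 - b₂))
      + (1 - t * b₂) * (1 - (1 - a₁) * (1 - b₁))) - 3 * (a₁ * t - b₁ * b₂)) (fun t => by ring)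
      (step1 a₁ b₁ (1 - x) h1 h2 (Or.inl rfl) b₂ hb hb')
      (step1 a₁ b₁ x h1 h2 (Or.inr rfl) b₂ hb hb') ha ha'
  have step3 : ∀ a₁ : ℝ, (a₁ = 1 - x ∨ a₁ = x) → ∀ b₁, 1 - x ≤ b₁ → b₁ ≤ x →
      0 ≤ (2 * x - 1) * (2 + (1 - a₁ * b₁) * (1 - (1 - a₂) * (1 - b₂))
      + (1 - a₂ * b₂) * (1 - (1 - a₁) * (1 - b₁))) - 3 * (a₁ * a₂ - b₁ * b₂) := by
    intro a₁ h1 b₁ hb hb'
    exact box1 (fun t => (2 * x - 1) * (2 + (1 - a₁ * t) * (1 - (1 - a₂) * (1 - b₂))
      + (1 - a₂ * b₂) * (1 - (1 - a₁) * (1 - t))) - 3 * (a₁ * a₂ - t * b₂)) (fun t => by ring)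
      (step2 a₁ (1 - x) h1 (Or.inl rfl) a₂ ha₂ ha₂' b₂ hb₂ hb₂')
      (step2 a₁ x h1 (Or.inr rfl) a₂ ha₂ ha₂' b₂ hb₂ hb₂') hb hb'
  have step4 := box1 (fun t => (2 * x - 1) * (2 + (1 - t * b₁) * (1 - (1 - a₂) * (1 - b₂))
      + (1 - a₂ * b₂) * (1 - (1 - t) * (1 - b₁))) - 3 * (t * a₂ - b₁ * b₂)) (fun t => by ring)
      (step3 (1 - x) (Or.inl rfl) b₁ hb₁ hb₁') (step3 x (Or.inr rfl) b₁ hb₁ hb₁') ha₁ ha₁'
  linarith

end Pool.Agent.X77.RK
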